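import Pool.Agent.Lib.MP_320961_gt.HP.Det

/-! Block algebra. -/

open scoped RealInnerProductSpace
open ContinuousLinearMap Module

noncomputable section

namespace HP

variable {E F : Type*} [NormedAddCommGroup E] [InnerProductSpace ℝ E] [CompleteSpace E]
  [FiniteDimensional ℝ E] [NormedAddCommGroup F] [InnerProductSpace ℝ F] [CompleteSpace F]
  [FiniteDimensional ℝ F]

variable {Γ : Type*} [Group Γ] (A : Rep Γ E F)

namespace Rep

/-- Polarisation of `orth`. -/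
theorem bil (g : Γ) (v w : E × F) :
    ⟪(A.ρ g v).1, (A.ρ g w).1⟫ - ⟪(A.ρ g v).2, (A.ρ g w).2⟫ = ⟪v.1, w.1⟫ - ⟪v.2, w.2⟫ := by
  have h1 := A.orth g (v + w)
  have h2 := A.orth g v
  have h3 := A.orth g w
  simp only [qq, map_add, Prod.fst_add, Prod.snd_add, norm_add_sq_real] at h1 h2 h3
  linarith

theorem norm_d_sq (g : Γ) (y : F) : ‖A.d g y‖ ^ 2 = ‖y‖ ^ 2 + ‖A.b g y‖ ^ 2 := by
  have h := A.orth g (0, y)
  simp only [qq, ρ_inr, norm_zero] at h
  linarith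

theorem isUnit_d (g : Γ) : IsUnit (A.d g) := by
  rw [isUnit_iff_isUnit_toLinearMap, LinearMap.isUnit_iff_ker_eq_bot, LinearMap.ker_eq_bot']
  intro y hy
  have h := A.norm_d_sq g y
  rw [show A.d g y = 0 from hy, norm_zero] at h
  rw [← norm_eq_zero, ← sq_eq_zero_iff]
  nlinarith [sq_nonneg ‖y‖, sq_nonneg ‖A.b g y‖]

theorem d_di (g : Γ) (y : F) : A.d g (A.di g y) = y := by
  exact congrArg (fun T : F →L[ℝ] F => T y) (Ring.mul_inverse_cancel _ (A.isUnit_d g))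

theorem di_d (g : Γ) (y : F) : A.di g (A.d g y) = y := by
  exact congrArg (fun T : F →L[ℝ] F => T y) (Ring.inverse_mul_cancel _ (A.isUnit_d g))

theorem blka_bil (g : Γ) (v : E × F) (y : F) :
    ⟪(A.ρ g⁻¹ v).2, y⟫ = ⟪v.2, A.d g y⟫ - ⟪v.1, A.b g y⟫ := by
  have h := A.bil g (A.ρ g⁻¹ v) (0, y)
  rw [← ρ_mul, mul_inv_cancel, ρ_one, ρ_inr] at h
  simp only [inner_zero_right] at h
  linarith

theorem d_inv (g : Γ) : A.d g⁻¹ = adjoint (A.d g) := by
  refine (eq_adjoint_iff _ _).2 fun x y => ?_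
  have h := A.blka_bil g (0, x) y
  simp only [ρ_inr, inner_zero_left] at h
  linarith

theorem di_inv (g : Γ) : A.di g⁻¹ = adjoint (A.di g) := by
  refine (eq_adjoint_iff _ _).2 fun x y => ?_
  have h := adjoint_inner_left (A.d g) (A.di g y) (A.di g⁻¹ x)
  rw [← d_inv, d_di, d_di] at h
  exact h.symm

theorem η_inv (g : Γ) : A.η g⁻¹ = A.η g := by
  rw [η, η, di_inv, LinearIsometryEquiv.norm_map]

theorem η_le_one (g : Γ) : A.η g ≤ 1 := by
  refine opNorm_le_bound _ zero_le_one fun y => ?_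
  have h := A.norm_d_sq g (A.di g y)
  rw [d_di] at h
  rw [one_mul, ← sq_le_sq₀ (norm_nonneg _) (norm_nonneg _), h]
  exact le_add_of_nonneg_right (sq_nonneg _)

theorem norm_Z_sq (g : Γ) (y : F) : ‖A.Z g y‖ ^ 2 = ‖y‖ ^ 2 - ‖A.di g y‖ ^ 2 := by
  have h := A.norm_d_sq g (A.di g y)
  rw [d_di] at h
  rw [h, add_sub_cancel_left]
  rfl

theorem norm_Z_le (g : Γ) : ‖A.Z g‖ ≤ 1 := by
  refine opNorm_le_bound _ zero_le_one fun y => ?_
  rw [one_mul, ← sq_le_sq₀ (norm_nonneg _) (norm_nonneg _), norm_Z_sq]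
  exact sub_le_self _ (sq_nonneg _)

/-- Polarisation of `norm_Z_sq`. -/
theorem ZZ (g : Γ) (y : F) :
    y - adjoint (A.Z g) (A.Z g y) = adjoint (A.di g) (A.di g y) := by
  refine ext_inner_right ℝ fun x => ?_
  have h := A.bil g (0, A.di g y) (0, A.di g x)
  simp only [ρ_inr, d_di, inner_zero_left] at h
  rw [inner_sub_left, adjoint_inner_left, adjoint_inner_left]
  change _ - ⟪A.b g (A.di g y), A.b g (A.di g x)⟫ = _
  linarith

/-- The second block of `ρ g⁻¹ v`: pair with `(0, y')` in `bil`. -/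
theorem snd_inv (g : Γ) (v : E × F) :
    (A.ρ g⁻¹ v).2 = A.d g⁻¹ (v.2 - adjoint (A.Z g) v.1) := by
  refine ext_inner_right ℝ fun y => ?_
  rw [blka_bil, d_inv, adjoint_inner_left, inner_sub_left, adjoint_inner_left]
  change _ = _ - ⟪v.1, A.b g (A.di g (A.d g y))⟫
  rw [di_d]

theorem ret (g : Γ) (v : E × F) :
    ‖v.2 - adjoint (A.Z g) v.1‖ ≤ A.η g * ‖(A.ρ g⁻¹ v).2‖ := by
  have h := (A.di g⁻¹).le_opNorm (A.ρ g⁻¹ v).2
  rw [← η_inv]
  rwa [snd_inv, di_d, ← snd_inv] at h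

omit [CompleteSpace F] [FiniteDimensional ℝ F] in
theorem blkb_det_comp (S T : F →L[ℝ] F) : (S.comp T).det = S.det * T.det :=
  LinearMap.det_comp (S : F →ₗ[ℝ] F) T

theorem blkb_N_di (g : Γ) : A.N g * |(A.di g).det| = 1 := by
  have h : (A.d g).comp (A.di g) = 1 := ContinuousLinearMap.ext fun y => A.d_di g y
  rw [N, ← abs_mul, ← blkb_det_comp, h]
  exact (congrArg abs LinearMap.det_id).trans abs_one

theorem N_one : A.N 1 = 1 := by
  have h : A.d 1 = 1 := ContinuousLinearMap.ext fun y => congrArg Prod.snd (A.ρ_one (0, y))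
  rw [N, h]
  exact (congrArg abs LinearMap.det_id).trans abs_one

theorem N_inv (g : Γ) : A.N g⁻¹ = A.N g := by
  rw [N, N, d_inv, det_adjoint]

/-- `d (g⁻¹ h) = d g⁻¹ ∘ (1 - (Z g)* Z h) ∘ d h` by `snd_inv`. -/
theorem N_coc (g h : Γ) : A.N (g⁻¹ * h) = A.N g * A.N h * BB (A.Z g) (A.Z h) := by
  have e : A.d (g⁻¹ * h) = (A.d g⁻¹).comp
      (((1 : F →L[ℝ] F) - (adjoint (A.Z g)).comp (A.Z h)).comp (A.d h)) := by
    ext y
    have h1 : A.Z h (A.d h y) = A.b h y := congrArg (A.b h) (A.di_d h y)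
    have h2 : A.d (g⁻¹ * h) y = (A.ρ g⁻¹ (A.b h y, A.d h y)).2 :=
      congrArg Prod.snd (A.ρ_mul g⁻¹ h (0, y))
    rw [h2, snd_inv, ← h1]
    rfl
  rw [← A.N_inv g, N, e, blkb_det_comp, blkb_det_comp, abs_mul, abs_mul, N, N, BB]
  ring

/-- `N g * |det (di g)| = 1` and `abs_det_le`. -/
theorem one_le_N (g : Γ) : 1 ≤ A.N g := by
  have h1 : |(A.di g).det| ≤ 1 :=
    (abs_det_le _).trans (pow_le_one₀ (norm_nonneg _) (A.η_le_one g))
  rw [← A.blkb_N_di g]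
  exact mul_le_of_le_one_right (abs_nonneg _) h1

theorem one_le_η_N (h : 1 ≤ finrank ℝ F) (g : Γ) : 1 ≤ A.η g * A.N g := by
  have h1 : |(A.di g).det| ≤ A.η g :=
    (abs_det_le _).trans (pow_le_of_le_one (norm_nonneg _) (A.η_le_one g) (by omega))
  rw [← A.blkb_N_di g, mul_comm (A.η g)]
  exact mul_le_mul_of_nonneg_left h1 (abs_nonneg _)

/-- With `w = di g y` and `h = g * s`: `ρ h⁻¹ (Z g y, y) = ρ s⁻¹ (0, w)` and
`ρ h⁻¹ (Z h y, y) = (0, di h y)`; apply `orth` to the difference `(Z g y - Z h y, 0)`. -/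
theorem move (g s : Γ) : ‖A.Z (g * s) - A.Z g‖ ≤ ‖A.b s⁻¹‖ * A.η g := by
  have key : ∀ (k : Γ) (y : F), A.ρ k⁻¹ (A.Z k y, y) = (0, A.di k y) := by
    intro k y
    have h1 : (A.Z k y, y) = A.ρ k (0, A.di k y) := by
      rw [ρ_inr, d_di]
      rfl
    rw [h1, ← ρ_mul, inv_mul_cancel, ρ_one]
  refine opNorm_le_bound _ (mul_nonneg (norm_nonneg _) (norm_nonneg _)) fun y => ?_
  have h1 : A.ρ (g * s)⁻¹ (A.Z g y, y) = (A.b s⁻¹ (A.di g y), A.d s⁻¹ (A.di g y)) := by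
    rw [mul_inv_rev, ρ_mul, key, ρ_inr]
  have h2 := A.orth (g * s)⁻¹ ((A.Z (g * s) y, y) - (A.Z g y, y))
  rw [map_sub, key, h1] at h2
  simp only [qq, Prod.fst_sub, Prod.snd_sub, zero_sub, norm_neg, sub_self, norm_zero] at h2
  have h3 : ‖A.Z (g * s) y - A.Z g y‖ ≤ ‖A.b s⁻¹ (A.di g y)‖ := by
    refine (abs_le_of_sq_le_sq' ?_ (norm_nonneg _)).2
    nlinarith [sq_nonneg ‖A.di (g * s) y - A.d s⁻¹ (A.di g y)‖]
  refine h3.trans ((le_opNorm _ _).trans ?_)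
  rw [mul_assoc]
  exact mul_le_mul_of_nonneg_left (le_opNorm _ _) (norm_nonneg _)

/-- Matrix of the bilinear form in a basis. -/
theorem abs_det_ρ (g : Γ) : |(A.ρ g).det| = 1 := by
  let B : LinearMap.BilinForm ℝ (E × F) :=
    (innerₗ E).compl₁₂ (LinearMap.fst ℝ E F) (LinearMap.fst ℝ E F) -
      (innerₗ F).compl₁₂ (LinearMap.snd ℝ E F) (LinearMap.snd ℝ E F)
  have hB : ∀ v w, B v w = ⟪v.1, w.1⟫ - ⟪v.2, w.2⟫ := fun v w => rfl
  have h1 : B.Nondegenerate := by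
    refine LinearMap.BilinForm.Nondegenerate.ofSeparatingLeft fun v hv => ?_
    have a1 := hv (v.1, 0)
    have a2 := hv (0, v.2)
    rw [hB] at a1 a2
    simp only [inner_zero_right, sub_zero, zero_sub, neg_eq_zero, inner_self_eq_zero] at a1 a2
    exact Prod.ext a1 a2
  have h2 : B.comp (A.ρ g : E × F →ₗ[ℝ] E × F) (A.ρ g : E × F →ₗ[ℝ] E × F) = B :=
    LinearMap.ext fun v => LinearMap.ext fun w => A.bil g v w
  let c := Module.finBasis ℝ (E × F)
  have h3 := LinearMap.BilinForm.toMatrix_comp c c B (A.ρ g : E × F →ₗ[ℝ] E × F)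
    (A.ρ g : E × F →ₗ[ℝ] E × F)
  have h4 := (LinearMap.BilinForm.nondegenerate_iff_det_ne_zero c).1 h1
  rw [h2] at h3
  have h5 := congrArg Matrix.det h3
  rw [Matrix.det_mul, Matrix.det_mul, Matrix.det_transpose, LinearMap.det_toMatrix] at h5
  have h6 : (A.ρ g).det ^ 2 = 1 := mul_left_cancel₀ h4 (by linear_combination -h5)
  exact (pow_eq_one_iff_of_nonneg (abs_nonneg _) two_ne_zero).1 ((sq_abs _).trans h6)

end Rep

end HP
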