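import Mathlib

/-! The space `E × F` with the form `‖x‖² - ‖y‖²`, blocks of its isometries, word lengths. -/

open scoped RealInnerProductSpace
open ContinuousLinearMap

noncomputable section

namespace HP

structure WordLen {Γ : Type*} [Group Γ] (l : Γ → ℕ) : Prop where
  one : l 1 = 0
  eq_one : ∀ γ, l γ = 0 → γ = 1
  inv : ∀ γ, l γ⁻¹ = l γ
  mul : ∀ γ η, l (γ * η) ≤ l γ + l η
  step : ∀ γ k, l γ = k + 1 → ∃ η σ, γ = η * σ ∧ l η = k ∧ l σ = 1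
  fin : ∀ k, {γ | l γ ≤ k}.Finite

/-- The abstract data: a word length, an almost multiplicative size `N`, directions `Z`. -/
structure Dat (Γ M : Type*) [Group Γ] [PseudoMetricSpace M] where
  l : Γ → ℕ
  wl : WordLen l
  N : Γ → ℝ
  Z : Γ → M
  b : ℝ
  one_le_b : 1 ≤ b
  one_le : ∀ g, 1 ≤ N g
  N_one : N 1 = 1
  N_inv : ∀ g, N g⁻¹ = N g
  N_mul : ∀ g h, N (g * h) ≤ b * (N g * N h)
  lip : ∀ g h k, |N (g⁻¹ * h) / (N g * N h) - N (g⁻¹ * k) / (N g * N k)| ≤ b * dist (Z h) (Z k)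
  move : ∀ g s, l s = 1 → dist (Z (g * s)) (Z g) ≤ b / 2 ^ l g
  big : ∀ g, 2 ^ l g ≤ b * N g

/-- The transversality of two directions. -/
def Dat.β {Γ M : Type*} [Group Γ] [PseudoMetricSpace M] (D : Dat Γ M) (g h : Γ) : ℝ :=
  D.N (g⁻¹ * h) / (D.N g * D.N h)

/-- No three far points of a member of the family are pairwise transverse, seen from anywhere. -/
def Dat.Thin {Γ M : Type*} [Group Γ] [PseudoMetricSpace M] (D : Dat Γ M) (𝓡 : Set (Set Γ)) :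
    Prop :=
  ∀ k : ℝ, 0 < k → ∃ r : ℕ, ∀ R ∈ 𝓡, ∀ o : Γ, ∀ h₁ ∈ R, ∀ h₂ ∈ R, ∀ h₃ ∈ R,
    r ≤ D.l (o⁻¹ * h₁) → r ≤ D.l (o⁻¹ * h₂) → r ≤ D.l (o⁻¹ * h₃) →
      D.β (o⁻¹ * h₁) (o⁻¹ * h₂) < k ∨ D.β (o⁻¹ * h₁) (o⁻¹ * h₃) < k ∨
        D.β (o⁻¹ * h₂) (o⁻¹ * h₃) < k

variable {E F : Type*} [NormedAddCommGroup E] [InnerProductSpace ℝ E] [CompleteSpace E]
  [NormedAddCommGroup F] [InnerProductSpace ℝ F] [CompleteSpace F]

/-- The quadratic form. -/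
def qq (v : E × F) : ℝ := ‖v.1‖ ^ 2 - ‖v.2‖ ^ 2

/-- The kernel `|det (1 - Z* W)|`. -/
def BB (Z W : F →L[ℝ] E) : ℝ := |((1 : F →L[ℝ] F) - (adjoint Z).comp W).det|

/-- The compact set of positive vectors. -/
def KK (E F : Type*) [NormedAddCommGroup E] [NormedAddCommGroup F] : Set (E × F) :=
  {v | 1 ≤ ‖v.1‖ ^ 2 - ‖v.2‖ ^ 2 ∧ ‖v‖ ≤ 5}

/-- A representation by isometries of `qq`. -/
structure Rep (Γ E F : Type*) [Group Γ] [NormedAddCommGroup E] [InnerProductSpace ℝ E]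
    [NormedAddCommGroup F] [InnerProductSpace ℝ F] where
  ρ : Γ →* (E × F →L[ℝ] E × F)
  orth : ∀ g v, qq (ρ g v) = qq v

/-- A proper cocompact action on `{qq = -1}`. -/
structure Act (Γ E F : Type*) [Group Γ] [NormedAddCommGroup E] [InnerProductSpace ℝ E]
    [NormedAddCommGroup F] [InnerProductSpace ℝ F] extends Rep Γ E F where
  R : ℝ
  one_le_R : 1 ≤ R
  proper : ∀ T : ℝ, {g | ∃ w, qq w = -1 ∧ ‖w‖ ≤ T ∧ ‖ρ g w‖ ≤ T}.Finite
  cocomp : ∀ v, qq v = -1 → ∃ g, ‖ρ g⁻¹ v‖ ≤ R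

variable {Γ : Type*} [Group Γ] (A : Rep Γ E F)

namespace Rep

/-- The upper right block. -/
def b (g : Γ) : F →L[ℝ] E := (fst ℝ E F).comp ((A.ρ g).comp (inr ℝ E F))

/-- The lower right block. -/
def d (g : Γ) : F →L[ℝ] F := (snd ℝ E F).comp ((A.ρ g).comp (inr ℝ E F))

/-- Its inverse. -/
def di (g : Γ) : F →L[ℝ] F := Ring.inverse (A.d g)

/-- The direction. -/
def Z (g : Γ) : F →L[ℝ] E := (A.b g).comp (A.di g)

/-- The size. -/
def N (g : Γ) : ℝ := |(A.d g).det|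

/-- The gap. -/
def η (g : Γ) : ℝ := ‖A.di g‖

omit [CompleteSpace E] [CompleteSpace F] in
theorem ρ_inr (g : Γ) (y : F) : A.ρ g (0, y) = (A.b g y, A.d g y) := rfl

omit [CompleteSpace E] [CompleteSpace F] in
theorem ρ_mul (g h : Γ) (v : E × F) : A.ρ (g * h) v = A.ρ g (A.ρ h v) := by
  rw [map_mul]; rfl

omit [CompleteSpace E] [CompleteSpace F] in
theorem ρ_one (v : E × F) : A.ρ 1 v = v := by rw [map_one]; rfl

end Rep

end HP
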