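import Pool.Agent.Lib.MP_320961_gt.HP.Defs

/-! Determinants. -/

open scoped RealInnerProductSpace
open ContinuousLinearMap Module

noncomputable section

namespace HP

variable {E F : Type*} [NormedAddCommGroup E] [InnerProductSpace ℝ E] [CompleteSpace E]
  [FiniteDimensional ℝ E] [NormedAddCommGroup F] [InnerProductSpace ℝ F] [CompleteSpace F]
  [FiniteDimensional ℝ F]

/-- Haar measure of the image of the closed unit ball, which lies in the ball of radius `‖T‖`
(`Measure.addHaar_image_continuousLinearMap`, `Measure.addHaar_closedBall`). -/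
theorem abs_det_le (T : F →L[ℝ] F) : |T.det| ≤ ‖T‖ ^ finrank ℝ F := by
  borelize F
  let μ : MeasureTheory.Measure F := MeasureTheory.Measure.addHaar
  have hs : T '' Metric.closedBall 0 1 ⊆ Metric.closedBall 0 ‖T‖ := by
    rintro _ ⟨x, hx, rfl⟩
    rw [mem_closedBall_zero_iff] at hx ⊢
    exact T.unit_le_opNorm x hx
  have h := MeasureTheory.measure_mono (μ := μ) hs
  rw [μ.addHaar_image_continuousLinearMap, μ.addHaar_closedBall' 0 (norm_nonneg T),
    ENNReal.mul_le_mul_iff_left (Metric.measure_closedBall_pos μ 0 one_pos).ne'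
      MeasureTheory.measure_closedBall_lt_top.ne,
    ENNReal.ofReal_le_ofReal_iff (by positivity)] at h
  exact h

theorem det_adjoint (T : F →L[ℝ] F) : (adjoint T).det = T.det := by
  let b := stdOrthonormalBasis ℝ F
  have e : ((adjoint T : F →L[ℝ] F) : F →ₗ[ℝ] F) = LinearMap.adjoint (T : F →ₗ[ℝ] F) := by
    rw [LinearMap.eq_adjoint_iff]
    exact fun x y => adjoint_inner_left T y x
  rw [ContinuousLinearMap.det, ContinuousLinearMap.det, e, ← LinearMap.det_toMatrix b.toBasis,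
    LinearMap.toMatrix_adjoint, Matrix.det_conjTranspose, star_trivial, LinearMap.det_toMatrix]

/-- In a basis the determinant is a sum of products of continuous linear functionals. -/
theorem contDiff_det : ContDiff ℝ 1 fun T : F →L[ℝ] F => T.det := by
  let b := Module.finBasis ℝ F
  have e : (fun T : F →L[ℝ] F => T.det) = fun T => ∑ σ : Equiv.Perm (Fin (finrank ℝ F)),
      ((Equiv.Perm.sign σ : ℤ) : ℝ) *
        ∏ i, LinearMap.toContinuousLinearMap (b.coord (σ i)) (T (b i)) := by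
    funext T
    rw [ContinuousLinearMap.det, ← LinearMap.det_toMatrix b, Matrix.det_apply']
    simp [LinearMap.toMatrix_apply]
  rw [e]
  refine ContDiff.sum fun σ _ => contDiff_const.mul (contDiff_prod fun i _ => ?_)
  exact (LinearMap.toContinuousLinearMap (b.coord (σ i))).contDiff.comp
    (contDiff_id.clm_apply contDiff_const)

theorem continuous_BB : Continuous fun p : (F →L[ℝ] E) × (F →L[ℝ] E) => BB p.1 p.2 := by
  unfold BB
  refine (ContinuousLinearMap.continuous_det.comp (continuous_const.sub ?_)).abs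
  exact ((adjoint (𝕜 := ℝ) (E := F) (F := E)).continuous.comp continuous_fst).clm_comp
    continuous_snd

omit [FiniteDimensional ℝ E] [FiniteDimensional ℝ F] in
theorem det_norm_comp_le {Z : F →L[ℝ] E} (hZ : ‖Z‖ ≤ 1) (W : F →L[ℝ] E) :
    ‖(adjoint Z).comp W‖ ≤ ‖W‖ := by
  refine (opNorm_comp_le _ _).trans ?_
  rw [LinearIsometryEquiv.norm_map]
  exact mul_le_of_le_one_left (norm_nonneg _) hZ

omit [FiniteDimensional ℝ E] [FiniteDimensional ℝ F] in
theorem det_norm_le_two {Z W : F →L[ℝ] E} (hZ : ‖Z‖ ≤ 1) (hW : ‖W‖ ≤ 1) :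
    ‖(1 : F →L[ℝ] F) - (adjoint Z).comp W‖ ≤ 2 := by
  have h1 : ‖(1 : F →L[ℝ] F)‖ ≤ 1 := norm_id_le
  have h2 := det_norm_comp_le hZ W
  linarith [norm_sub_le (1 : F →L[ℝ] F) ((adjoint Z).comp W)]

theorem BB_le {Z W : F →L[ℝ] E} (hZ : ‖Z‖ ≤ 1) (hW : ‖W‖ ≤ 1) : BB Z W ≤ 2 ^ finrank ℝ F := by
  exact (abs_det_le _).trans (pow_le_pow_left₀ (norm_nonneg _) (det_norm_le_two hZ hW) _)

/-- The determinant is Lipschitz on the compact ball of radius `2`. -/
theorem BB_lip : ∃ L : ℝ, 0 ≤ L ∧ ∀ Z W W' : F →L[ℝ] E, ‖Z‖ ≤ 1 → ‖W‖ ≤ 1 → ‖W'‖ ≤ 1 →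
    |BB Z W - BB Z W'| ≤ L * ‖W - W'‖ := by
  have := FiniteDimensional.proper_real (F →L[ℝ] F)
  obtain ⟨K, hK⟩ := (contDiff_det (F := F)).contDiffOn.exists_lipschitzOnWith one_ne_zero
    (convex_closedBall 0 2) (isCompact_closedBall 0 2)
  refine ⟨K, K.2, fun Z W W' hZ hW hW' => (abs_abs_sub_abs_le_abs_sub _ _).trans ?_⟩
  have h := hK.dist_le_mul _ (mem_closedBall_zero_iff.2 (det_norm_le_two hZ hW)) _
    (mem_closedBall_zero_iff.2 (det_norm_le_two hZ hW'))
  rw [Real.dist_eq, dist_eq_norm, sub_sub_sub_cancel_left, ← comp_sub] at h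
  refine h.trans (mul_le_mul_of_nonneg_left ?_ K.2)
  rw [norm_sub_rev W]
  exact det_norm_comp_le hZ _

end HP
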