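import Pool.Agent.Lib.MP_320961_gt.HP.Word

/-! Sizes along geodesics. -/

noncomputable section

namespace HP

variable {Γ M : Type*} [Group Γ] [PseudoMetricSpace M] (D : Dat Γ M)

namespace Dat

theorem geoa_pos (g : Γ) : 0 < D.N g := zero_lt_one.trans_le (D.one_le g)

theorem geoa_letter : ∃ m : ℝ, 1 ≤ m ∧ ∀ s, D.l s = 1 → D.N s ≤ m := by
  obtain ⟨m, hm⟩ := ((D.wl.fin 1).image D.N).bddAbove
  exact ⟨m, D.N_one ▸ hm ⟨1, by simp [D.wl.one], rfl⟩, fun s hs => hm ⟨s, hs.le, rfl⟩⟩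

theorem β_pos (g h : Γ) : 0 < D.β g h := by
  exact div_pos (D.geoa_pos _) (mul_pos (D.geoa_pos _) (D.geoa_pos _))

theorem β_comm (g h : Γ) : D.β g h = D.β h g := by
  rw [β, β, ← D.N_inv (g⁻¹ * h), mul_inv_rev, inv_inv, mul_comm (D.N g)]

theorem β_one (g : Γ) : D.β 1 g = 1 := by
  rw [β, inv_one, one_mul, D.N_one, one_mul, div_self (D.geoa_pos g).ne']

theorem finite_N (S : ℝ) : {g | D.N g ≤ S}.Finite := by
  refine (D.wl.fin ⌈D.b * S⌉₊).subset fun g hg => ?_
  have h1 : D.N g ≤ S := hg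
  have h2 : (D.l g : ℝ) ≤ 2 ^ D.l g := by exact_mod_cast Nat.lt_two_pow_self.le
  have h3 : (D.l g : ℝ) ≤ ⌈D.b * S⌉₊ := h2.trans ((D.big g).trans
    ((mul_le_mul_of_nonneg_left h1 (zero_le_one.trans D.one_le_b)).trans (Nat.le_ceil _)))
  exact_mod_cast h3

/-- `N (o⁻¹ g) ≤ (b max N(letters)) ^ l o * N g`. -/
theorem shift : ∃ C : ℝ, 1 ≤ C ∧ (∀ g, D.N g ≤ C ^ D.l g) ∧
    ∀ o g h, D.β g h ≤ C ^ D.l o * D.β (o⁻¹ * g) (o⁻¹ * h) := by
  obtain ⟨m, hm, h⟩ := D.geoa_letter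
  have hb := D.one_le_b
  have hc : 1 ≤ D.b * m := one_le_mul_of_one_le_of_one_le hb hm
  have key : ∀ (n : ℕ) (o : Γ), D.l o = n → ∀ g, D.N (o * g) ≤ (D.b * m) ^ n * D.N g := by
    intro n
    induction n with
    | zero =>
      intro o ho g
      rw [D.wl.eq_one o ho, one_mul, pow_zero, one_mul]
    | succ n ih =>
      intro o ho g
      obtain ⟨σ, η, rfl, h1, h2⟩ := D.wl.step_left o n ho
      have h3 := D.geoa_pos (η * g)
      calc D.N (σ * η * g) ≤ D.b * (D.N σ * D.N (η * g)) := by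
            rw [mul_assoc]
            exact D.N_mul _ _
        _ ≤ D.b * (m * ((D.b * m) ^ n * D.N g)) := by
            gcongr
            exacts [h σ h1, ih η h2 g]
        _ = (D.b * m) ^ (n + 1) * D.N g := by ring
  refine ⟨(D.b * m) ^ 2, one_le_pow₀ hc, fun g => ?_, fun o g h => ?_⟩
  · have h1 := key _ g rfl 1
    rw [mul_one, D.N_one, mul_one] at h1
    rw [← pow_mul]
    exact h1.trans (pow_le_pow_right₀ hc (by omega))
  · have h1 := key _ o⁻¹ (D.wl.inv o) g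
    have h2 := key _ o⁻¹ (D.wl.inv o) h
    have p1 := D.geoa_pos g
    have p2 := D.geoa_pos h
    have p3 := D.geoa_pos (o⁻¹ * g)
    have p4 := D.geoa_pos (o⁻¹ * h)
    have p5 := D.geoa_pos (g⁻¹ * h)
    rw [β, β, show (o⁻¹ * g)⁻¹ * (o⁻¹ * h) = g⁻¹ * h by group, ← mul_div_assoc,
      div_le_div_iff₀ (mul_pos p1 p2) (mul_pos p3 p4)]
    calc D.N (g⁻¹ * h) * (D.N (o⁻¹ * g) * D.N (o⁻¹ * h))
        ≤ D.N (g⁻¹ * h) * (((D.b * m) ^ D.l o * D.N g) * ((D.b * m) ^ D.l o * D.N h)) := by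
          gcongr
      _ = _ := by ring

theorem geoa_step : ∃ A : ℝ, 0 ≤ A ∧ ∀ s m t, D.l s = 1 → D.l t = 1 →
    Real.log (D.β s m) - A / 2 ^ D.l m ≤ Real.log (D.β s (m * t)) := by
  obtain ⟨c, hc, h⟩ := D.geoa_letter
  have hb : 0 < D.b := zero_lt_one.trans_le D.one_le_b
  refine ⟨D.b * c ^ 2 * (D.b * D.b), by positivity, fun s m t hs ht => ?_⟩
  have p1 := D.β_pos s m
  have p2 := D.β_pos s (m * t)
  have h1 : 1 ≤ D.b * c ^ 2 * D.β s (m * t) := by
    have q1 := D.geoa_pos s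
    have q2 := D.geoa_pos (m * t)
    have q3 := D.geoa_pos (s⁻¹ * (m * t))
    have q4 := D.N_mul s (s⁻¹ * (m * t))
    have q5 := h s hs
    rw [mul_inv_cancel_left] at q4
    rw [β, ← mul_div_assoc, le_div_iff₀ (mul_pos q1 q2), one_mul]
    calc D.N s * D.N (m * t) ≤ c * (D.b * (c * D.N (s⁻¹ * (m * t)))) := by
          refine mul_le_mul q5 (q4.trans ?_) q2.le (by positivity)
          gcongr
      _ = _ := by ring
  have h2 : D.β s m - D.β s (m * t) ≤ D.b * (D.b / 2 ^ D.l m) := by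
    refine (le_abs_self _).trans ((D.lip s m (m * t)).trans ?_)
    rw [dist_comm]
    exact mul_le_mul_of_nonneg_left (D.move m t ht) hb.le
  have h3 := Real.log_le_sub_one_of_pos (div_pos p1 p2)
  rw [Real.log_div p1.ne' p2.ne'] at h3
  have h4 : D.β s m / D.β s (m * t) - 1 ≤ D.b * c ^ 2 * (D.b * D.b) / 2 ^ D.l m := by
    rw [div_sub_one p2.ne', div_le_iff₀ p2]
    calc D.β s m - D.β s (m * t) ≤ D.b * (D.b / 2 ^ D.l m) * 1 := by rw [mul_one]; exact h2
      _ ≤ D.b * (D.b / 2 ^ D.l m) * (D.b * c ^ 2 * D.β s (m * t)) := by gcongr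
      _ = _ := by ring
  linarith

/-- Paper B. For letters `s, t`: `N (s m t) N m / (N (s m) N (m t)) = β s⁻¹ (m t) / β s⁻¹ m`, both
`β` are bounded below, their difference is at most `b * b / 2 ^ l m`. Telescope twice. -/
theorem geo : ∃ k : ℝ, 0 < k ∧ ∀ g h, D.l (g⁻¹ * h) = D.l g + D.l h → k ≤ D.β g h := by
  obtain ⟨A, hA⟩ := D.geoa_step
  have k1 : ∀ s a, D.l s = 1 → ∀ (n : ℕ) (h : Γ), D.l h = n → D.l (a * h) = D.l a + n →
      Real.log (D.β s a) - A * (2 / 2 ^ D.l a) * (1 - 1 / 2 ^ n) ≤ Real.log (D.β s (a * h)) := by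
    intro s a hs n
    induction n with
    | zero =>
      intro h hh _
      rw [D.wl.eq_one h hh, mul_one]
      simp
    | succ n ih =>
      intro h hh hl
      obtain ⟨η, t, rfl, h1, h2⟩ := D.wl.step h n hh
      rw [← mul_assoc] at hl ⊢
      have h3 := D.wl.mul (a * η) t
      have h4 := D.wl.mul a η
      have h5 : D.l (a * η) = D.l a + n := by omega
      have h6 := hA.2 s (a * η) t hs h2
      have h7 := ih η h1 h5
      rw [h5] at h6
      have h8 : A * (2 / 2 ^ D.l a) * (1 - 1 / 2 ^ (n + 1)) =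
          A * (2 / 2 ^ D.l a) * (1 - 1 / 2 ^ n) + A / 2 ^ (D.l a + n) := by
        field_simp
        ring
      linarith
  have k2 : ∀ (h : Γ) (n : ℕ) (a : Γ), D.l a = n → D.l (a * h) = n + D.l h →
      -(4 * A * (1 - 1 / 2 ^ n)) ≤ Real.log (D.β a⁻¹ h) := by
    intro h n
    induction n with
    | zero =>
      intro a ha _
      rw [D.wl.eq_one a ha, inv_one, D.β_one]
      simp
    | succ n ih =>
      intro a ha hl
      obtain ⟨s, η, rfl, h1, h2⟩ := D.wl.step_left a n ha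
      rw [mul_assoc] at hl
      have h3 := D.wl.mul s (η * h)
      have h4 := D.wl.mul η h
      have h5 : D.l (η * h) = n + D.l h := by omega
      have h6 := k1 s⁻¹ η (by rw [D.wl.inv, h1]) _ h rfl (by rw [h5, h2])
      have h7 := ih η h2 h5
      have h8 : D.β (s * η)⁻¹ h * D.β s⁻¹ η = D.β s⁻¹ (η * h) * D.β η⁻¹ h := by
        have p1 := (D.geoa_pos (s * η)).ne'
        have p2 := (D.geoa_pos (η * h)).ne'
        have p3 := (D.geoa_pos η).ne'
        have p4 := (D.geoa_pos h).ne'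
        have p5 := (D.geoa_pos s).ne'
        simp only [β, inv_inv, D.N_inv, mul_assoc]
        field_simp
      have h9 := congrArg Real.log h8
      rw [Real.log_mul (D.β_pos _ _).ne' (D.β_pos _ _).ne',
        Real.log_mul (D.β_pos _ _).ne' (D.β_pos _ _).ne'] at h9
      have h10 : 4 * A * (1 - 1 / 2 ^ (n + 1)) = 4 * A * (1 - 1 / 2 ^ n) + A * (2 / 2 ^ n) := by
        field_simp
        ring
      have h11 : 0 ≤ A * (2 / 2 ^ n) * (1 / 2 ^ D.l h) := by
        have := hA.1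
        positivity
      rw [h2] at h6
      linarith
  refine ⟨Real.exp (-(4 * A)), Real.exp_pos _, fun g h hl => ?_⟩
  have h1 := k2 h _ g⁻¹ (D.wl.inv g) hl
  rw [inv_inv] at h1
  rw [← Real.le_log_iff_exp_le (D.β_pos g h)]
  have h2 : 0 ≤ 4 * A * (1 / 2 ^ D.l g) := by
    have := hA.1
    positivity
  linarith

theorem geob_sum {x : ℕ → M} {δ : ℝ} (n : ℕ)
    (h : ∀ j < n, dist (x j) (x (j + 1)) ≤ δ * (4 / 5) ^ j) :
    dist (x 0) (x n) ≤ 5 * δ * (1 - (4 / 5) ^ n) := by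
  induction n with
  | zero => simp
  | succ n ih =>
    have h1 := ih fun j hj => h j (by omega)
    have h2 := h n (by omega)
    have h3 := dist_triangle (x 0) (x n) (x (n + 1))
    rw [pow_succ]
    linarith

theorem geob_pow {l r : ℕ} (h : r ≤ 3 * l) : ((2 : ℝ) ^ l)⁻¹ ≤ (4 / 5) ^ r := by
  refine le_trans ?_ (pow_le_pow_of_le_one (by norm_num) (by norm_num) h)
  rw [pow_mul, ← inv_pow]
  exact pow_le_pow_left₀ (by norm_num) (by norm_num) l

/-- A geodesic `P` from `g` to `h` meets the ball of radius `r` (`geo`, `shift`) or avoids it; then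
with `i₀` of least length, `l (P i) ≥ max r (|i - i₀| - l (P i₀))`, so `3 l (P i) ≥ r + |i - i₀|`
and the sum of the `move` bounds is small. -/
theorem dich {e : ℝ} (he : 0 < e) :
    ∃ k : ℝ, 0 < k ∧ ∀ g h, k ≤ D.β g h ∨ dist (D.Z g) (D.Z h) ≤ e := by
  obtain ⟨k, hk, hgeo⟩ := D.geo
  obtain ⟨C, hC, -, hsh⟩ := D.shift
  have hb : 0 < D.b := zero_lt_one.trans_le D.one_le_b
  have hC0 : 0 < C := zero_lt_one.trans_le hC
  obtain ⟨r, hr⟩ := exists_pow_lt_of_lt_one (x := e / (10 * D.b)) (y := (4 / 5 : ℝ))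
    (by positivity) (by norm_num)
  refine ⟨k / C ^ r, by positivity, fun g h => ?_⟩
  obtain ⟨n, hn⟩ : ∃ n, D.l (g⁻¹ * h) = n := ⟨_, rfl⟩
  obtain ⟨Q, q0, qn, hQ⟩ : ∃ Q : ℕ → Γ, Q 0 = g ∧ Q n = h ∧
      ∀ i j, i ≤ j → j ≤ n → D.l ((Q i)⁻¹ * Q j) = j - i := by
    obtain ⟨P, p0, pn, hP⟩ := D.wl.path (g⁻¹ * h)
    rw [hn] at pn hP
    refine ⟨fun i => g * P i, by simp [p0], by simp [pn], fun i j hij hj => ?_⟩
    rw [← hP i j hij hj]
    congr 1
    group
  obtain ⟨a, ha, hmin⟩ := Finset.exists_min_image (Finset.range (n + 1)) (fun i => D.l (Q i))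
    ⟨0, by simp⟩
  have ha' : a ≤ n := by simpa [Nat.lt_succ_iff] using ha
  by_cases hc : D.l (Q a) ≤ r
  · left
    have h1 := hgeo ((Q a)⁻¹ * g) ((Q a)⁻¹ * h) (by
      have e1 : ((Q a)⁻¹ * g)⁻¹ * ((Q a)⁻¹ * h) = g⁻¹ * h := by group
      have e2 : D.l ((Q a)⁻¹ * g) = a - 0 := by
        rw [← hQ 0 a (Nat.zero_le a) ha', ← D.wl.inv, q0]
        congr 1
        group
      have e3 := hQ a n ha' le_rfl
      rw [qn] at e3
      rw [e1, hn, e2, e3]
      omega)
    have h2 := hsh (Q a)⁻¹ ((Q a)⁻¹ * g) ((Q a)⁻¹ * h)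
    rw [inv_inv, mul_inv_cancel_left, mul_inv_cancel_left, D.wl.inv] at h2
    rw [div_le_iff₀ (by positivity), mul_comm]
    exact (h1.trans h2).trans
      (mul_le_mul_of_nonneg_right (pow_le_pow_right₀ hC hc) (D.β_pos g h).le)
  · right
    have hstep : ∀ i j, i < n → (i = a + j ∨ i + j + 1 = a) →
        dist (D.Z (Q i)) (D.Z (Q (i + 1))) ≤ D.b * (4 / 5) ^ r * (4 / 5) ^ j := by
      intro i j hi hij
      have h1 := D.move (Q i) ((Q i)⁻¹ * Q (i + 1)) (by
        rw [hQ i (i + 1) (by omega) (by omega)]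
        omega)
      rw [mul_inv_cancel_left, dist_comm] at h1
      have h2 := hmin i (Finset.mem_range.2 (by omega))
      have h3 : j ≤ D.l (Q i) + D.l (Q a) := by
        rcases hij with e | e
        · have h4 := D.wl.mul (Q a)⁻¹ (Q i)
          rw [hQ a i (by omega) (by omega), D.wl.inv] at h4
          omega
        · have h4 := D.wl.mul (Q i)⁻¹ (Q a)
          rw [hQ i a (by omega) ha', D.wl.inv] at h4
          omega
      refine h1.trans ?_
      rw [div_eq_mul_inv, mul_assoc, ← pow_add]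
      exact mul_le_mul_of_nonneg_left (geob_pow (by omega)) hb.le
    have h1 := geob_sum (x := fun j => D.Z (Q (a + j))) (n - a) fun j hj =>
      hstep (a + j) j (by omega) (Or.inl rfl)
    have h2 := geob_sum (x := fun j => D.Z (Q (a - j))) (δ := D.b * (4 / 5) ^ r) a fun j hj => by
      have h3 := hstep (a - (j + 1)) j (by omega) (Or.inr (by omega))
      rwa [dist_comm, show a - (j + 1) + 1 = a - j by omega] at h3
    simp only [add_zero, Nat.add_sub_cancel' ha', qn] at h1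
    simp only [Nat.sub_zero, Nat.sub_self, q0] at h2
    have h3 := dist_triangle_left (D.Z g) (D.Z h) (D.Z (Q a))
    have h4 : 0 ≤ D.b * (4 / 5) ^ r * (4 / 5 : ℝ) ^ a := by positivity
    have h5 : 0 ≤ D.b * (4 / 5) ^ r * (4 / 5 : ℝ) ^ (n - a) := by positivity
    rw [lt_div_iff₀ (by positivity)] at hr
    linarith

end Dat

end HP
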