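import Pool.Agent.Lib.MP_320961_gt.HP.Det

/-! Parity: no three pairwise transverse isotropic planes orthogonal to one vector. -/

open scoped RealInnerProductSpace
open ContinuousLinearMap Module

noncomputable section

namespace HP

section

variable {E F : Type*} [NormedAddCommGroup E] [InnerProductSpace ℝ E] [FiniteDimensional ℝ E]
  [NormedAddCommGroup F] [InnerProductSpace ℝ F] [FiniteDimensional ℝ F]

theorem par_det_adjoint (Q : E →ₗ[ℝ] E) :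
    LinearMap.det (LinearMap.adjoint Q) = LinearMap.det Q := by
  have b := stdOrthonormalBasis ℝ E
  rw [← LinearMap.det_toMatrix b.toBasis, ← LinearMap.det_toMatrix b.toBasis Q,
    LinearMap.toMatrix_adjoint, Matrix.det_conjTranspose, star_trivial]

theorem par_adj {Q : E →ₗ[ℝ] E} (hQ : ∀ a b, ⟪Q a, Q b⟫ = ⟪a, b⟫) :
    LinearMap.adjoint Q * Q = 1 := by
  ext a
  refine ext_inner_left ℝ fun b => ?_
  rw [Module.End.mul_apply, LinearMap.adjoint_inner_right, hQ, Module.End.one_apply]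

theorem par_det_sq {Q : E →ₗ[ℝ] E} (hQ : ∀ a b, ⟪Q a, Q b⟫ = ⟪a, b⟫) :
    LinearMap.det Q = 1 ∨ LinearMap.det Q = -1 := by
  have h := congrArg LinearMap.det (par_adj hQ)
  rw [map_mul, par_det_adjoint, map_one] at h
  exact mul_self_eq_one_iff.1 h

/-- An isometry of determinant `-1` in even dimension has a fixed vector. -/
theorem par_fix {Q : E →ₗ[ℝ] E} (hQ : ∀ a b, ⟪Q a, Q b⟫ = ⟪a, b⟫) (hd : LinearMap.det Q = -1)
    (he : Even (finrank ℝ E)) : ∃ f, f ≠ 0 ∧ Q f = f := by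
  have h1 : LinearMap.adjoint Q * (1 - Q) = (-1 : ℝ) • LinearMap.adjoint (1 - Q) := by
    rw [mul_sub, par_adj hQ, mul_one, map_sub, neg_one_smul, neg_sub]
    congr 1
    exact (LinearMap.adjoint_id (𝕜 := ℝ) (E := E)).symm
  have h2 := congrArg LinearMap.det h1
  rw [map_mul, LinearMap.det_smul, par_det_adjoint, par_det_adjoint, hd, he.neg_one_pow] at h2
  have h3 : LinearMap.det (1 - Q) = 0 := by linarith
  obtain ⟨f, hf, h0⟩ := (Submodule.ne_bot_iff _).1 (LinearMap.det_eq_zero_iff_ker_ne_bot.1 h3)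
  rw [LinearMap.mem_ker, LinearMap.sub_apply, Module.End.one_apply, sub_eq_zero] at hf
  exact ⟨f, h0, hf.symm⟩

/-- A rotation in even dimension that fixes a vector fixes a second one. -/
theorem par_fix_two {R : E →ₗ[ℝ] E} (hR : ∀ a b, ⟪R a, R b⟫ = ⟪a, b⟫) (hd : LinearMap.det R = 1)
    (he : Even (finrank ℝ E)) {x : E} (hx : x ≠ 0) (hf : R x = x) :
    ∃ f, f ≠ 0 ∧ ⟪x, f⟫ = 0 ∧ R f = f := by
  set K : Submodule ℝ E := (ℝ ∙ x)ᗮ with hK
  have d1 : LinearMap.det K.reflection.toLinearMap = -1 := by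
    rw [Submodule.det_reflection, hK, Submodule.orthogonal_orthogonal, finrank_span_singleton hx,
      pow_one]
  obtain ⟨f, h0, h1⟩ := par_fix (Q := R * K.reflection.toLinearMap)
    (fun a b => by
      rw [Module.End.mul_apply, Module.End.mul_apply, hR]
      exact K.reflection.inner_map_map a b) (by rw [map_mul, hd, d1, one_mul]) he
  have h2 : R (K.reflection f) = f := h1
  have h3 : K.reflection x = -x := Submodule.reflection_orthogonalComplement_singleton_eq_neg x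
  have h4 : ⟪x, f⟫ = 0 := by
    have e1 : ⟪x, f⟫ = ⟪x, K.reflection f⟫ := by
      rw [← hR x (K.reflection f), hf, h2]
    have e2 := K.reflection.inner_map_map x (K.reflection f)
    rw [h3, K.reflection_reflection, inner_neg_left] at e2
    linarith
  have h5 : K.reflection f = f :=
    Submodule.reflection_mem_subspace_eq_self (Submodule.mem_orthogonal_singleton_iff_inner_right.2 h4)
  exact ⟨f, h0, h4, by rwa [h5] at h2⟩

theorem par_split (hd : finrank ℝ E = finrank ℝ F + 1) {Z : F →ₗ[ℝ] E}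
    (hZ : ∀ a b, ⟪Z a, Z b⟫ = ⟪a, b⟫) {u : E} (hu : ⟪u, u⟫ = 1) (h0 : ∀ a, ⟪Z a, u⟫ = 0) (e : E) :
    Z (LinearMap.adjoint Z e) + ⟪u, e⟫ • u = e := by
  have hi : Function.Injective Z := (injective_iff_map_eq_zero Z).2 fun a ha => by
    have := hZ a a
    rw [ha, inner_zero_left] at this
    exact inner_self_eq_zero.1 this.symm
  have h1 := Submodule.finrank_add_finrank_orthogonal (LinearMap.range Z)
  rw [LinearMap.finrank_range_of_inj hi, hd] at h1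
  have m1 : u ∈ (LinearMap.range Z)ᗮ := by
    rintro _ ⟨a, rfl⟩
    exact h0 a
  have m2 : e - Z (LinearMap.adjoint Z e) ∈ (LinearMap.range Z)ᗮ := by
    rintro _ ⟨a, rfl⟩
    rw [inner_sub_right, hZ, LinearMap.adjoint_inner_right, sub_self]
  have u0 : (⟨u, m1⟩ : (LinearMap.range Z)ᗮ) ≠ 0 := fun h => by
    have : u = 0 := congrArg Subtype.val h
    rw [this, inner_zero_left] at hu
    exact zero_ne_one hu
  obtain ⟨c, hc⟩ := (finrank_eq_one_iff_of_nonzero' _ u0).1 (Nat.add_left_cancel h1) ⟨_, m2⟩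
  have h2 : c • u = e - Z (LinearMap.adjoint Z e) := congrArg Subtype.val hc
  have h3 := congrArg (fun t => ⟪u, t⟫) h2
  simp only [inner_smul_right, hu, inner_sub_right, mul_one] at h3
  rw [real_inner_comm (Z _) u, h0, sub_zero] at h3
  rw [← h3, h2, add_sub_cancel]

/-- The isometry of `E` that carries one embedding and its normal to another. -/
def parR (Z W : F →ₗ[ℝ] E) (u w : E) : E →ₗ[ℝ] E :=
  W ∘ₗ LinearMap.adjoint Z + (innerₗ E u).smulRight w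

theorem parR_apply (Z W : F →ₗ[ℝ] E) (u w e : E) :
    parR Z W u w e = W (LinearMap.adjoint Z e) + ⟪u, e⟫ • w := rfl

theorem parR_on {Z W : F →ₗ[ℝ] E} (hZ : ∀ a b, ⟪Z a, Z b⟫ = ⟪a, b⟫) {u : E} (hu : ⟪u, u⟫ = 1)
    (h0 : ∀ a, ⟪Z a, u⟫ = 0) (w : E) (a : F) (c : ℝ) :
    parR Z W u w (Z a + c • u) = W a + c • w := by
  have e1 : LinearMap.adjoint Z (Z a + c • u) = a := ext_inner_left ℝ fun b => by
    rw [LinearMap.adjoint_inner_right, inner_add_right, inner_smul_right, hZ, h0, mul_zero,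
      add_zero]
  rw [parR_apply, e1, inner_add_right, inner_smul_right, hu, real_inner_comm (Z a) u, h0, zero_add,
    mul_one]

omit [FiniteDimensional ℝ E] [FiniteDimensional ℝ F] in
theorem par_inner {Z : F →ₗ[ℝ] E} (hZ : ∀ a b, ⟪Z a, Z b⟫ = ⟪a, b⟫) {u : E} (hu : ⟪u, u⟫ = 1)
    (h0 : ∀ a, ⟪Z a, u⟫ = 0) (a b : F) (c d : ℝ) :
    ⟪Z a + c • u, Z b + d • u⟫ = ⟪a, b⟫ + c * d := by
  rw [inner_add_left, inner_add_right, inner_add_right, inner_smul_right, real_inner_smul_left,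
    real_inner_smul_left, inner_smul_right, hZ, h0, hu, real_inner_comm (Z b) u, h0]
  ring

theorem par_pair (hd : finrank ℝ E = finrank ℝ F + 1) (ho : Odd (finrank ℝ F)) {Z W : F →ₗ[ℝ] E}
    (hZ : ∀ a b, ⟪Z a, Z b⟫ = ⟪a, b⟫) (hW : ∀ a b, ⟪W a, W b⟫ = ⟪a, b⟫) {u w : E}
    (hu : ⟪u, u⟫ = 1) (hw : ⟪w, w⟫ = 1) (h0 : ∀ a, ⟪Z a, u⟫ = 0) (h1 : ∀ a, ⟪W a, w⟫ = 0)
    {y : F} {r : ℝ} (hr : r ≠ 0) (hx : Z y + r • u = W y + r • w)
    (hdet : LinearMap.det (parR Z W u w) = 1) : ∃ t, t ≠ 0 ∧ Z t = W t := by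
  have iso : ∀ a b, ⟪parR Z W u w a, parR Z W u w b⟫ = ⟪a, b⟫ := fun a b => by
    rw [parR_apply, parR_apply, par_inner hW hw h1, ← par_inner hZ hu h0, par_split hd hZ hu h0,
      par_split hd hZ hu h0]
  have x0 : Z y + r • u ≠ 0 := fun h => by
    have := par_inner hZ hu h0 0 y 1 r
    rw [h, inner_zero_right, inner_zero_left, zero_add, one_mul] at this
    exact hr this.symm
  obtain ⟨f, f0, f1, f2⟩ := par_fix_two iso hdet (by rw [hd]; exact ho.add_one) x0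
    (by rw [parR_on hZ hu h0, hx])
  obtain ⟨a, c, rfl⟩ : ∃ a c, f = Z a + c • u := ⟨_, _, (par_split hd hZ hu h0 f).symm⟩
  rw [parR_on hZ hu h0] at f2
  rw [par_inner hZ hu h0] at f1
  refine ⟨r • a - c • y, fun h => f0 ?_, ?_⟩
  · have e1 : r • a = c • y := sub_eq_zero.1 h
    have e2 : r * ⟪y, a⟫ = c * ⟪y, y⟫ := by rw [← inner_smul_right, e1, inner_smul_right]
    have e3 : c * (⟪y, y⟫ + r * r) = 0 := by linear_combination r * f1 - e2
    have e4 : 0 < ⟪y, y⟫ + r * r :=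
      add_pos_of_nonneg_of_pos real_inner_self_nonneg (mul_self_pos.2 hr)
    have e5 : c = 0 := (mul_eq_zero.1 e3).resolve_right e4.ne'
    rw [e5, zero_smul] at e1
    rw [e5, (smul_eq_zero.1 e1).resolve_left hr, map_zero, zero_smul, add_zero]
  · rw [map_sub, map_sub, map_smul, map_smul, map_smul, map_smul]
    have e1 : W a = Z a + c • u - c • w := eq_sub_of_add_eq f2
    have e2 : W y = Z y + r • u - r • w := eq_sub_of_add_eq hx.symm
    rw [e1, e2]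
    module

theorem par_three (hd : finrank ℝ E = finrank ℝ F + 1) (ho : Odd (finrank ℝ F))
    (Z : Fin 3 → F →ₗ[ℝ] E) (hZ : ∀ i a b, ⟪Z i a, Z i b⟫ = ⟪a, b⟫) {x : E} (hx : x ≠ 0) {y : F}
    (hy : ∀ i, LinearMap.adjoint (Z i) x = y) :
    (∃ t, t ≠ 0 ∧ Z 0 t = Z 1 t) ∨ (∃ t, t ≠ 0 ∧ Z 0 t = Z 2 t) ∨ ∃ t, t ≠ 0 ∧ Z 1 t = Z 2 t := by
  have o1 : ∀ i a, ⟪Z i a, x - Z i y⟫ = 0 := fun i a => by
    rw [inner_sub_right, hZ, ← LinearMap.adjoint_inner_right, hy, sub_self]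
  have o2 : ∀ i, ‖x - Z i y‖ ^ 2 = ‖x‖ ^ 2 - ‖y‖ ^ 2 := fun i => by
    rw [norm_sub_sq_real, ← real_inner_self_eq_norm_sq (Z i y), hZ, ← LinearMap.adjoint_inner_left,
      hy, real_inner_self_eq_norm_sq]
    ring
  have o3 : ∀ i, ‖x - Z i y‖ = ‖x - Z 0 y‖ := fun i => by
    rw [← sq_eq_sq₀ (norm_nonneg _) (norm_nonneg _), o2, o2]
  obtain ⟨r, hr⟩ : ∃ r, ‖x - Z 0 y‖ = r := ⟨_, rfl⟩
  rw [hr] at o3
  by_cases r0 : r = 0
  · have e : ∀ i, x = Z i y := fun i => sub_eq_zero.1 (norm_eq_zero.1 ((o3 i).trans r0))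
    refine Or.inl ⟨y, fun h => hx ?_, (e 0).symm.trans (e 1)⟩
    rw [e 0, h, map_zero]
  obtain ⟨u, hu, h0, hx'⟩ : ∃ u : Fin 3 → E, (∀ i, ⟪u i, u i⟫ = 1) ∧ (∀ i a, ⟪Z i a, u i⟫ = 0) ∧
      ∀ i, Z i y + r • u i = x := by
    refine ⟨fun i => r⁻¹ • (x - Z i y), fun i => ?_, fun i a => ?_, fun i => ?_⟩
    · rw [real_inner_smul_left, inner_smul_right, real_inner_self_eq_norm_sq, o3]
      field_simp
    · rw [inner_smul_right, o1, mul_zero]
    · rw [smul_inv_smul₀ r0, add_sub_cancel]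
  have P := fun i j => par_pair hd ho (hZ i) (hZ j) (hu i) (hu j) (h0 i) (h0 j) r0
    ((hx' i).trans (hx' j).symm)
  have iso : ∀ i j a b, ⟪parR (Z i) (Z j) (u i) (u j) a, parR (Z i) (Z j) (u i) (u j) b⟫ = ⟪a, b⟫ :=
    fun i j a b => by
      rw [parR_apply, parR_apply, par_inner (hZ j) (hu j) (h0 j), ← par_inner (hZ i) (hu i) (h0 i),
        par_split hd (hZ i) (hu i) (h0 i), par_split hd (hZ i) (hu i) (h0 i)]
  have comp : parR (Z 0) (Z 2) (u 0) (u 2) =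
      parR (Z 1) (Z 2) (u 1) (u 2) * parR (Z 0) (Z 1) (u 0) (u 1) := by
    ext e
    rw [Module.End.mul_apply, parR_apply (Z 0) (Z 1), parR_on (hZ 1) (hu 1) (h0 1), parR_apply]
  rcases par_det_sq (iso 0 1) with d1 | d1
  · exact Or.inl (P 0 1 d1)
  rcases par_det_sq (iso 1 2) with d2 | d2
  · exact Or.inr (Or.inr (P 1 2 d2))
  exact Or.inr (Or.inl (P 0 2 (by rw [comp, map_mul, d1, d2]; norm_num)))

omit [FiniteDimensional ℝ E] [FiniteDimensional ℝ F] in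
theorem par_iso {Z : F →L[ℝ] E} (hZ : ∀ y, ‖Z y‖ = ‖y‖) (a b : F) : ⟪Z a, Z b⟫ = ⟪a, b⟫ :=
  (LinearMap.norm_map_iff_inner_map_map Z).1 hZ a b

end

variable {E F : Type*} [NormedAddCommGroup E] [InnerProductSpace ℝ E] [CompleteSpace E]
  [FiniteDimensional ℝ E] [NormedAddCommGroup F] [InnerProductSpace ℝ F] [CompleteSpace F]
  [FiniteDimensional ℝ F]

/-- Paper P. -/
theorem parity (hE : finrank ℝ E = finrank ℝ F + 1) (hF : Odd (finrank ℝ F))
    {Z₁ Z₂ Z₃ : F →L[ℝ] E} (i₁ : ∀ y, ‖Z₁ y‖ = ‖y‖) (i₂ : ∀ y, ‖Z₂ y‖ = ‖y‖)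
    (i₃ : ∀ y, ‖Z₃ y‖ = ‖y‖) {x : E} (hx : x ≠ 0) {y : F} (h₁ : adjoint Z₁ x = y)
    (h₂ : adjoint Z₂ x = y) (h₃ : adjoint Z₃ x = y) :
    BB Z₁ Z₂ = 0 ∨ BB Z₁ Z₃ = 0 ∨ BB Z₂ Z₃ = 0 := by
  have z : ∀ Z W : F →L[ℝ] E, (∀ y, ‖Z y‖ = ‖y‖) → (∃ t, t ≠ 0 ∧ Z t = W t) → BB Z W = 0 := by
    rintro Z W hZ ⟨t, t0, ht⟩
    rw [BB, abs_eq_zero]
    refine LinearMap.det_eq_zero_iff_ker_ne_bot.2 ((Submodule.ne_bot_iff _).2 ⟨t, ?_, t0⟩)
    change t - adjoint Z (W t) = 0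
    rw [sub_eq_zero]
    refine ext_inner_left ℝ fun a => ?_
    rw [adjoint_inner_right, ← ht, par_iso hZ]
  have a : ∀ Z : F →L[ℝ] E, LinearMap.adjoint (Z : F →ₗ[ℝ] E) x = adjoint Z x := fun Z =>
    ext_inner_left ℝ fun a => by
      rw [LinearMap.adjoint_inner_right, adjoint_inner_right]; rfl
  have := par_three hE hF ![(Z₁ : F →ₗ[ℝ] E), (Z₂ : F →ₗ[ℝ] E), (Z₃ : F →ₗ[ℝ] E)]
    (fun i => by
      fin_cases i
      exacts [par_iso i₁, par_iso i₂, par_iso i₃]) hx (y := y)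
    (fun i => by
      fin_cases i
      exacts [(a Z₁).trans h₁, (a Z₂).trans h₂, (a Z₃).trans h₃])
  exact this.imp (z _ _ i₁) (Or.imp (z _ _ i₁) (z _ _ i₂))

/-- The compact sets of almost isometric triples. -/
def parC (E F : Type*) [NormedAddCommGroup E] [InnerProductSpace ℝ E] [CompleteSpace E]
    [NormedAddCommGroup F] [InnerProductSpace ℝ F] [CompleteSpace F] (k e : ℝ) :
    Set ((Fin 3 → F →L[ℝ] E) × E × F) :=
  {p | (‖p.1‖ ≤ 1 ∧ ‖p.2.1‖ = 1 ∧ ‖p.2.2‖ ≤ 2) ∧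
    (k ≤ BB (p.1 0) (p.1 1) ∧ k ≤ BB (p.1 0) (p.1 2) ∧ k ≤ BB (p.1 1) (p.1 2)) ∧
    (∀ i u, ‖u‖ ^ 2 - ‖p.1 i u‖ ^ 2 ≤ e * ‖u‖ ^ 2) ∧ ∀ i, ‖p.2.2 - adjoint (p.1 i) p.2.1‖ ≤ e}

theorem parC_compact (k e : ℝ) : IsCompact (parC E F k e) := by
  have cz : ∀ i, Continuous fun p : (Fin 3 → F →L[ℝ] E) × E × F => p.1 i := fun i =>
    (continuous_apply i).comp continuous_fst
  have cB : ∀ i j, Continuous fun p : (Fin 3 → F →L[ℝ] E) × E × F => BB (p.1 i) (p.1 j) :=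
    fun i j => by
      have := (continuous_BB (E := E) (F := F)).comp ((cz i).prodMk (cz j))
      exact this
  have cA : ∀ i, Continuous fun p : (Fin 3 → F →L[ℝ] E) × E × F => adjoint (p.1 i) p.2.1 :=
    fun i => by
      have h : Continuous fun Z : F →L[ℝ] E => adjoint Z := LinearIsometryEquiv.continuous _
      exact (h.comp (cz i)).clm_apply continuous_snd.fst
  refine Metric.isCompact_of_isClosed_isBounded ?_ ?_
  · simp only [parC, Set.ofPred_and, Set.ofPred_forall]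
    exact ((isClosed_le continuous_fst.norm continuous_const).inter
      ((isClosed_eq continuous_snd.fst.norm continuous_const).inter
        (isClosed_le continuous_snd.snd.norm continuous_const))).inter
      (((isClosed_le continuous_const (cB 0 1)).inter ((isClosed_le continuous_const (cB 0 2)).inter
        (isClosed_le continuous_const (cB 1 2)))).inter
      ((isClosed_iInter fun i => isClosed_iInter fun u => isClosed_le
        (continuous_const.sub (((cz i).clm_apply continuous_const).norm.pow 2))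
          continuous_const).inter
        (isClosed_iInter fun i => isClosed_le (continuous_snd.snd.sub (cA i)).norm
          continuous_const)))
  · refine isBounded_iff_forall_norm_le.2 ⟨2, fun p hp => ?_⟩
    obtain ⟨h1, h2, h3⟩ := hp.1
    exact norm_prod_le_iff.2 ⟨h1.trans one_le_two, norm_prod_le_iff.2 ⟨h2.trans_le one_le_two, h3⟩⟩

/-- Compactness; normalise `‖x‖ = 1`. -/
theorem parity_near (hE : finrank ℝ E = finrank ℝ F + 1) (hF : Odd (finrank ℝ F)) {k : ℝ}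
    (hk : 0 < k) : ∃ e : ℝ, 0 < e ∧ ∀ (Z : Fin 3 → F →L[ℝ] E) (x : E) (y : F),
      (∀ i, ‖Z i‖ ≤ 1) → (∀ i u, ‖u‖ ^ 2 - ‖Z i u‖ ^ 2 ≤ e * ‖u‖ ^ 2) → 1 ≤ ‖x‖ →
        (∀ i, ‖y - adjoint (Z i) x‖ ≤ e) →
          BB (Z 0) (Z 1) < k ∨ BB (Z 0) (Z 2) < k ∨ BB (Z 1) (Z 2) < k := by
  by_contra hcon
  push Not at hcon
  have dec : ∀ n : ℕ, parC E F k (1 / (((n + 1 : ℕ) : ℝ) + 1)) ⊆ parC E F k (1 / ((n : ℝ) + 1)) :=
    fun n p hp => by
      have e : 1 / (((n + 1 : ℕ) : ℝ) + 1) ≤ 1 / ((n : ℝ) + 1) := Nat.one_div_le_one_div n.le_succ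
      exact ⟨hp.1, hp.2.1, fun i u => (hp.2.2.1 i u).trans
        (mul_le_mul_of_nonneg_right e (sq_nonneg _)), fun i => (hp.2.2.2 i).trans e⟩
  have ne : ∀ n : ℕ, (parC E F k (1 / ((n : ℝ) + 1))).Nonempty := fun n => by
    obtain ⟨Z, x, y, h1, h2, h3, h4, h5⟩ := hcon _ (Nat.one_div_pos_of_nat (n := n))
    have x0 : 0 < ‖x‖ := one_pos.trans_le h3
    have i1 : ‖x‖⁻¹ ≤ 1 := inv_le_one_of_one_le₀ h3
    have n1 : ‖‖x‖⁻¹ • x‖ = 1 := norm_smul_inv_norm (norm_pos_iff.1 x0)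
    have n2 : ∀ i, ‖‖x‖⁻¹ • y - adjoint (Z i) (‖x‖⁻¹ • x)‖ ≤ 1 / ((n : ℝ) + 1) := fun i => by
      rw [map_smul, ← smul_sub, norm_smul, norm_inv, norm_norm]
      exact (mul_le_of_le_one_left (norm_nonneg _) i1).trans (h4 i)
    have n3 : ‖‖x‖⁻¹ • y‖ ≤ 2 := by
      have e1 := norm_le_insert' (‖x‖⁻¹ • y) (adjoint (Z 0) (‖x‖⁻¹ • x))
      have e2 := (adjoint (Z 0)).le_opNorm (‖x‖⁻¹ • x)
      rw [n1, mul_one, LinearIsometryEquiv.norm_map] at e2
      have e3 : 1 / ((n : ℝ) + 1) ≤ 1 := by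
        rw [div_le_one (by positivity)]
        linarith [Nat.cast_nonneg (α := ℝ) n]
      linarith [n2 0, h1 0]
    exact ⟨(Z, ‖x‖⁻¹ • x, ‖x‖⁻¹ • y), ⟨(pi_norm_le_iff_of_nonneg zero_le_one).2 h1, n1, n3⟩, h5,
      h2, n2⟩
  obtain ⟨⟨Z, x, y⟩, hp⟩ := IsCompact.nonempty_iInter_of_sequence_nonempty_isCompact_isClosed
    (fun n : ℕ => parC E F k (1 / ((n : ℝ) + 1))) dec ne (parC_compact _ _)
    fun n => (parC_compact _ _).isClosed
  rw [Set.mem_iInter] at hp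
  have lim : ∀ a b : ℝ, (∀ n : ℕ, a ≤ 1 / ((n : ℝ) + 1) * b) → a ≤ 0 := fun a b h => by
    have := (tendsto_one_div_add_atTop_nhds_zero_nat (𝕜 := ℝ)).mul_const b
    rw [zero_mul] at this
    exact ge_of_tendsto' this h
  have z1 : ∀ i, ‖Z i‖ ≤ 1 := (pi_norm_le_iff_of_nonneg zero_le_one).1 (hp 0).1.1
  have iso : ∀ i u, ‖Z i u‖ = ‖u‖ := fun i u => by
    have e1 := lim (‖u‖ ^ 2 - ‖Z i u‖ ^ 2) (‖u‖ ^ 2) fun n => (hp n).2.2.1 i u
    refine le_antisymm (((Z i).le_opNorm u).trans (mul_le_of_le_one_left (norm_nonneg _) (z1 i))) ?_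
    exact (sq_le_sq₀ (norm_nonneg _) (norm_nonneg _)).1 (sub_nonpos.1 e1)
  have ad : ∀ i, adjoint (Z i) x = y := fun i => by
    have e1 := lim ‖y - adjoint (Z i) x‖ 1 fun n => by
      rw [mul_one]
      exact (hp n).2.2.2 i
    exact (sub_eq_zero.1 (norm_le_zero_iff.1 e1)).symm
  have x1 : ‖x‖ = 1 := (hp 0).1.2.1
  have x0 : x ≠ 0 := norm_ne_zero_iff.1 (x1.trans_ne one_ne_zero)
  obtain ⟨b1, b2, b3⟩ := (hp 0).2.1
  rcases parity hE hF (iso 0) (iso 1) (iso 2) x0 (ad 0) (ad 1) (ad 2) with h | h | h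
  · exact (hk.trans_le b1).ne' h
  · exact (hk.trans_le b2).ne' h
  · exact (hk.trans_le b3).ne' h

end HP
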