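import Pool.Agent.Lib.MP_320961_gt.HP.Geo

/-! Thin sets are lines. -/

noncomputable section

namespace HP

variable {Γ M : Type*} [Group Γ] [PseudoMetricSpace M] (D : Dat Γ M)

namespace Dat

/-- Paper T, claim. -/
theorem tri {𝓡 : Set (Set Γ)} (hT : D.Thin 𝓡) : ∃ k : ℝ, 0 < k ∧ ∀ R ∈ 𝓡, ∀ h₁ ∈ R, ∀ h₂ ∈ R,
    ∀ h₃ ∈ R, k ≤ D.β (h₁⁻¹ * h₂) (h₁⁻¹ * h₃) ∨ k ≤ D.β (h₂⁻¹ * h₁) (h₂⁻¹ * h₃) ∨
      k ≤ D.β (h₃⁻¹ * h₁) (h₃⁻¹ * h₂) := by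
  obtain ⟨C, hC, -, hsh⟩ := D.shift
  obtain ⟨k0, hk0, hgeo⟩ := D.geo
  have hb : 0 < D.b := one_pos.trans_le D.one_le_b
  have hC0 : 0 < C := one_pos.trans_le hC
  obtain ⟨k1, hk1, hdi⟩ := D.dich (e := k0 / (2 * D.b)) (by positivity)
  obtain ⟨k, hk, hk', hk'', hk3⟩ : ∃ k : ℝ, 0 < k ∧ k ≤ k1 ∧ C * k ≤ k0 / 2 ∧ k ≤ 1 :=
    ⟨min (min k1 (k0 / 2 / C)) 1, by positivity, (min_le_left _ _).trans (min_le_left _ _),
      (le_div_iff₀' hC0).1 ((min_le_left _ _).trans (min_le_right _ _)), min_le_right _ _⟩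
  have hk4 : k ≤ k0 / 2 := (le_mul_of_one_le_left hk.le hC).trans hk''
  obtain ⟨r, hr⟩ := hT k hk
  have sh : ∀ o o' x y, D.β (o⁻¹ * x) (o⁻¹ * y) ≤
      C ^ D.l (o⁻¹ * o') * D.β (o'⁻¹ * x) (o'⁻¹ * y) := fun o o' x y => by
    simpa only [mul_inv_rev, inv_inv, mul_assoc, mul_inv_cancel_left] using
      hsh (o⁻¹ * o') (o⁻¹ * x) (o⁻¹ * y)
  have near : ∀ o o' x y, D.l (o⁻¹ * o') ≤ 2 * r → k ≤ D.β (o⁻¹ * x) (o⁻¹ * y) →
      k / C ^ (2 * r) ≤ D.β (o'⁻¹ * x) (o'⁻¹ * y) := fun o o' x y h1 h2 => by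
    rw [div_le_iff₀' (by positivity)]
    exact h2.trans ((sh o o' x y).trans
      (mul_le_mul_of_nonneg_right (pow_le_pow_right₀ hC h1) (D.β_pos _ _).le))
  have sym : ∀ x y, D.l (x⁻¹ * y) = D.l (y⁻¹ * x) := fun x y => by
    rw [← D.wl.inv, mul_inv_rev, inv_inv]
  refine ⟨k / C ^ (2 * r), by positivity, fun R hR h₁ m₁ h₂ m₂ h₃ m₃ => ?_⟩
  obtain ⟨P, p0, pT, hP⟩ := D.wl.path (h₁⁻¹ * h₂)
  obtain ⟨T, hT'⟩ : ∃ T, D.l (h₁⁻¹ * h₂) = T := ⟨_, rfl⟩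
  rw [hT'] at pT hP
  obtain ⟨o, l1, l2, l3⟩ : ∃ o : ℕ → Γ, (∀ t ≤ T, D.l ((o t)⁻¹ * h₁) = t) ∧
      (∀ t ≤ T, D.l ((o t)⁻¹ * h₂) = T - t) ∧ ∀ t < T, D.l ((o t)⁻¹ * o (t + 1)) = 1 := by
    refine ⟨fun t => h₁ * P t, fun t ht => ?_, fun t ht => ?_, fun t ht => ?_⟩
    · have := hP 0 t (Nat.zero_le t) ht
      rw [p0, inv_one, one_mul] at this
      rw [mul_inv_rev, inv_mul_cancel_right, D.wl.inv, this, Nat.sub_zero]
    · rw [mul_inv_rev, mul_assoc, ← pT, hP t T ht le_rfl]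
    · rw [mul_inv_rev, mul_assoc, inv_mul_cancel_left, hP t (t + 1) t.le_succ ht]
      omega
  have g0 : ∀ t ≤ T, k0 ≤ D.β ((o t)⁻¹ * h₁) ((o t)⁻¹ * h₂) := fun t ht => hgeo _ _ (by
    rw [l1 t ht, l2 t ht, mul_inv_rev, inv_inv, mul_assoc, mul_inv_cancel_left, hT']
    omega)
  rcases le_or_gt T (2 * r) with h1 | h1
  · refine Or.inl (near h₂ h₁ _ _ (by rwa [sym, hT']) ?_)
    rwa [inv_mul_cancel, D.β_one]
  by_cases h2 : ∃ t ≤ T, D.l ((o t)⁻¹ * h₃) ≤ 2 * r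
  · obtain ⟨t, ht, h3⟩ := h2
    exact Or.inr (Or.inr (near (o t) h₃ _ _ h3 (by linarith [g0 t ht])))
  push Not at h2
  by_cases h3 : k ≤ D.β ((o r)⁻¹ * h₂) ((o r)⁻¹ * h₃)
  · exact Or.inl (near (o r) h₁ _ _ (by rw [l1 r (by omega)]; omega) h3)
  have st : ∀ t ≤ T, D.β ((o t)⁻¹ * h₂) ((o t)⁻¹ * h₃) < k →
      k0 / 2 ≤ D.β ((o t)⁻¹ * h₁) ((o t)⁻¹ * h₃) := fun t ht h => by
    have h4 := (hdi _ _).resolve_left (not_le.2 (h.trans_le hk'))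
    have h5 := (abs_le.1 (D.lip ((o t)⁻¹ * h₁) ((o t)⁻¹ * h₂) ((o t)⁻¹ * h₃))).2
    have h6 := mul_le_mul_of_nonneg_left h4 hb.le
    rw [show D.b * (k0 / (2 * D.b)) = k0 / 2 by field_simp] at h6
    have h7 := g0 t ht
    unfold β at h7 ⊢
    linarith
  have ind : ∀ t, r ≤ t → t ≤ T - r → k0 / 2 ≤ D.β ((o t)⁻¹ * h₁) ((o t)⁻¹ * h₃) := by
    intro t ht
    induction t, ht using Nat.le_induction with
    | base => exact fun _ => st r (by omega) (not_le.1 h3)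
    | succ t ht ih =>
      intro h4
      have h5 := (ih (by omega)).trans (sh (o t) (o (t + 1)) h₁ h₃)
      rw [l3 t (by omega), pow_one] at h5
      have h6 := le_of_mul_le_mul_left (hk''.trans h5) hC0
      have h7 := h2 (t + 1) (by omega)
      have h8 := g0 (t + 1) (by omega)
      rcases hr R hR (o (t + 1)) h₁ m₁ h₂ m₂ h₃ m₃ (by rw [l1 _ (by omega)]; omega)
        (by rw [l2 _ (by omega)]; omega) (by omega) with h | h | h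
      · linarith
      · linarith
      · exact st _ (by omega) h
  exact Or.inr (Or.inl (near (o (T - r)) h₂ _ _ (by rw [l2 _ (by omega)]; omega)
    (hk4.trans (ind _ (by omega) le_rfl))))

theorem trib_close {k S : ℝ} (hk : 0 < k) (hS : 0 < S) {g g' : Γ} (hg : S ≤ D.N g)
    (hg' : D.N g' ≤ 2 * S) (h : k ≤ D.β (g⁻¹ * 1) (g⁻¹ * g')) : D.N (g⁻¹ * g') ≤ 2 / k := by
  have h1 : 0 < D.N (g⁻¹ * g') := one_pos.trans_le (D.one_le _)
  have h2 : 0 < D.N g := hS.trans_le hg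
  rw [β, mul_one, inv_inv, mul_inv_cancel_left, D.N_inv, le_div_iff₀ (mul_pos h2 h1)] at h
  rw [le_div_iff₀ hk]
  have h3 : S * (D.N (g⁻¹ * g') * k) ≤ D.N g * (D.N (g⁻¹ * g') * k) :=
    mul_le_mul_of_nonneg_right hg (mul_pos h1 hk).le
  refine le_of_mul_le_mul_left ?_ hS
  nlinarith

/-- Paper T, count. -/
theorem count {𝓡 : Set (Set Γ)} (hT : D.Thin 𝓡) (h1 : ∀ R ∈ 𝓡, (1 : Γ) ∈ R) :
    ∃ m : ℕ, ∀ R ∈ 𝓡, ∀ S : ℝ, 0 < S → ∀ T : Finset Γ,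
      (∀ g ∈ T, g ∈ R ∧ S ≤ D.N g ∧ D.N g ≤ 2 * S) → T.card ≤ m := by
  classical
  obtain ⟨k, hk, htri⟩ := D.tri hT
  obtain ⟨r, hr⟩ := hT k hk
  have hF := D.finite_N (2 / k)
  have hB := D.wl.fin r
  refine ⟨hB.toFinset.card + (hF.toFinset.card + hF.toFinset.card), fun R hR S hS T hTm => ?_⟩
  have hcl : ∀ g ∈ T, ∀ g' ∈ T, D.β g g' < k → g' ∈ hF.toFinset.image fun x => g * x := by
    intro g hg g' hg' hlt
    refine Finset.mem_image.2 ⟨g⁻¹ * g', hF.mem_toFinset.2 ?_, mul_inv_cancel_left _ _⟩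
    obtain ⟨a1, a2, a3⟩ := hTm g hg
    obtain ⟨b1, b2, b3⟩ := hTm g' hg'
    rcases htri R hR 1 (h1 R hR) g a1 g' b1 with h | h | h
    · rw [inv_one, one_mul, one_mul] at h
      exact absurd hlt (not_lt.2 h)
    · exact D.trib_close hk hS a2 b3 h
    · have h2 := D.trib_close hk hS b2 a3 h
      rwa [← D.N_inv, mul_inv_rev, inv_inv] at h2
  have hsub : ∃ a b : Γ, T ⊆ hB.toFinset ∪ ((hF.toFinset.image fun x => a * x) ∪
      hF.toFinset.image fun x => b * x) := by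
    by_contra hne
    have hex : ∀ a b : Γ, ∃ c ∈ T, r ≤ D.l c ∧ (c ∉ hF.toFinset.image fun x => a * x) ∧
        c ∉ hF.toFinset.image fun x => b * x := by
      intro a b
      obtain ⟨c, hc, hn⟩ := Finset.not_subset.1 fun h => hne ⟨a, b, h⟩
      rw [Finset.mem_union, Finset.mem_union, not_or, not_or, hB.mem_toFinset] at hn
      exact ⟨c, hc, (not_le.1 hn.1).le, hn.2⟩
    obtain ⟨a, ha, ha1, -⟩ := hex 1 1
    obtain ⟨b, hb, hb1, hb2, -⟩ := hex a a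
    obtain ⟨c, hc, hc1, hc2, hc3⟩ := hex a b
    have h := hr R hR 1 a (hTm a ha).1 b (hTm b hb).1 c (hTm c hc).1
    simp only [inv_one, one_mul] at h
    rcases h ha1 hb1 hc1 with h | h | h
    · exact hb2 (hcl a ha b hb h)
    · exact hc2 (hcl a ha c hc h)
    · exact hc3 (hcl b hb c hc h)
  obtain ⟨a, b, hab⟩ := hsub
  refine (Finset.card_le_card hab).trans ((Finset.card_union_le _ _).trans ?_)
  exact Nat.add_le_add_left ((Finset.card_union_le _ _).trans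
    (Nat.add_le_add Finset.card_image_le Finset.card_image_le)) _

theorem trib_shell {C : ℝ} (hC : ∀ S : ℝ, 0 < S → ∀ T : Finset Γ,
    (∀ g ∈ T, S ≤ D.N g ∧ D.N g ≤ 2 * S) → (T.card : ℝ) ≤ C * S) {S : ℝ} (hS : 0 < S)
    (T : Finset Γ) (hT : ∀ g ∈ T, S ≤ D.N g ∧ D.N g ≤ 2 * S) : ∑ g ∈ T, 1 / D.N g ≤ C := by
  have h1 : ∑ g ∈ T, 1 / D.N g ≤ T.card • (1 / S) :=
    Finset.sum_le_card_nsmul _ _ _ fun g hg => one_div_le_one_div_of_le hS (hT g hg).1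
  rw [nsmul_eq_mul, mul_one_div] at h1
  exact h1.trans ((div_le_iff₀ hS).2 (hC S hS T hT))

/-- Dyadic shells. -/
theorem shells {C : ℝ} (hC : ∀ S : ℝ, 0 < S → ∀ T : Finset Γ,
    (∀ g ∈ T, S ≤ D.N g ∧ D.N g ≤ 2 * S) → (T.card : ℝ) ≤ C * S) (j : ℕ) (T : Finset Γ)
    (hT : ∀ g ∈ T, D.N g ≤ 2 ^ j) : ∑ g ∈ T, 1 / D.N g ≤ C * (j + 1) := by
  classical
  induction j generalizing T with
  | zero =>
    have h := D.trib_shell hC one_pos T fun g hg => ⟨D.one_le g, by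
      have := hT g hg
      rw [pow_zero] at this
      linarith⟩
    simpa using h
  | succ j ih =>
    have h1 := ih (T.filter fun g => D.N g ≤ 2 ^ j) fun g hg => (Finset.mem_filter.1 hg).2
    have h2 := D.trib_shell hC (S := 2 ^ j) (by positivity) (T.filter fun g => ¬ D.N g ≤ 2 ^ j)
      fun g hg => ⟨(not_le.1 (Finset.mem_filter.1 hg).2).le, by
        have := hT g (Finset.mem_filter.1 hg).1
        rwa [pow_succ'] at this⟩
    rw [← Finset.sum_filter_add_sum_filter_not T fun g => D.N g ≤ 2 ^ j]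
    push_cast
    linarith

end Dat

end HP
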