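import Pool.Agent.Lib.MP_320961_gt.HP.Blk

/-! Volumes of return sets. -/

open scoped RealInnerProductSpace ENNReal
open ContinuousLinearMap Module MeasureTheory Set Metric

noncomputable section

namespace HP

variable {E F : Type*} [NormedAddCommGroup E] [InnerProductSpace ℝ E] [CompleteSpace E]
  [FiniteDimensional ℝ E] [NormedAddCommGroup F] [InnerProductSpace ℝ F] [CompleteSpace F]
  [FiniteDimensional ℝ F] [MeasurableSpace E] [BorelSpace E] [MeasurableSpace F] [BorelSpace F]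
  (μ : Measure E) (ν : Measure F) [μ.IsAddHaarMeasure] [ν.IsAddHaarMeasure]

variable {Γ : Type*} [Group Γ]

omit [CompleteSpace F] in
theorem slice (T : F →L[ℝ] F) (hT : T.det ≠ 0) (y₀ : F) {r : ℝ} (hr : 0 ≤ r) :
    ν {y | ‖T (y - y₀)‖ ≤ r} =
      ENNReal.ofReal (r ^ finrank ℝ F / |T.det|) * ν (closedBall 0 1) := by
  have e : {y | ‖T (y - y₀)‖ ≤ r} = (fun y => y + -y₀) ⁻¹' (T ⁻¹' closedBall 0 r) := by
    ext y
    simp [sub_eq_add_neg]
  rw [e, measure_preimage_add_right, Measure.addHaar_preimage_continuousLinearMap ν hT,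
    Measure.addHaar_closedBall' ν 0 hr, ← mul_assoc, ← ENNReal.ofReal_mul (abs_nonneg _), abs_inv,
    div_eq_inv_mul]

omit [CompleteSpace E] [CompleteSpace F] [μ.IsAddHaarMeasure] in
theorem vola_prod {B : Set E} (hB : IsClosed B) (T : F →L[ℝ] F) (hT : T.det ≠ 0)
    (W : E →L[ℝ] F) {r : ℝ} (hr : 0 ≤ r) :
    μ.prod ν {v | v.1 ∈ B ∧ ‖T (v.2 - W v.1)‖ ≤ r} =
      ENNReal.ofReal (r ^ finrank ℝ F / |T.det|) * ν (closedBall 0 1) * μ B := by
  have hS : MeasurableSet {v : E × F | v.1 ∈ B ∧ ‖T (v.2 - W v.1)‖ ≤ r} := by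
    have h : IsClosed {v : E × F | ‖T (v.2 - W v.1)‖ ≤ r} :=
      isClosed_le (by fun_prop) continuous_const
    exact ((hB.preimage continuous_fst).inter h).measurableSet
  rw [Measure.prod_apply hS, ← lintegral_indicator_const hB.measurableSet]
  refine lintegral_congr fun x => ?_
  by_cases hx : x ∈ B
  · rw [indicator_of_mem hx, ← slice ν T hT (W x) hr]
    congr 1
    ext y
    simp [hx]
  · rw [indicator_of_notMem hx]
    have : Prod.mk x ⁻¹' {v : E × F | v.1 ∈ B ∧ ‖T (v.2 - W v.1)‖ ≤ r} = ∅ := by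
      ext y
      simp [hx]
    rw [this, measure_empty]

omit [MeasurableSpace E] [BorelSpace E] [MeasurableSpace F] [BorelSpace F] in
theorem vola_det (A : Rep Γ E F) (g : Γ) : (A.d g).det ≠ 0 := by
  have := A.one_le_N g
  intro h
  rw [Rep.N, h, abs_zero] at this
  exact absurd this (by norm_num)

/-- Paper V1: unit `n` with `(Z g)* n = 0`, `x ∈ closedBall (3 n) (1/2)`,
`‖d g⁻¹ (y - (Z g)* x)‖ ≤ 1/2`; `Measure.prod_apply` and `slice`. -/
theorem vol_ret (hE : finrank ℝ E = finrank ℝ F + 1) (A : Rep Γ E F) : ∃ c : ℝ, 0 < c ∧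
    ∀ g, ENNReal.ofReal (c / A.N g) ≤ μ.prod ν {v | v ∈ KK E F ∧ A.ρ g⁻¹ v ∈ KK E F} := by
  have h1 : 0 < ν (closedBall (0 : F) 1) := measure_closedBall_pos ν 0 one_pos
  have h2 : 0 < μ (closedBall (0 : E) (1 / 2)) := measure_closedBall_pos μ 0 (by norm_num)
  have h1' : ν (closedBall (0 : F) 1) ≠ ⊤ := measure_closedBall_lt_top.ne
  have h2' : μ (closedBall (0 : E) (1 / 2)) ≠ ⊤ := measure_closedBall_lt_top.ne
  refine ⟨(1 / 2) ^ finrank ℝ F * (ν (closedBall (0 : F) 1)).toReal *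
    (μ (closedBall (0 : E) (1 / 2))).toReal,
    mul_pos (mul_pos (by positivity) (ENNReal.toReal_pos h1.ne' h1'))
      (ENNReal.toReal_pos h2.ne' h2'), fun g => ?_⟩
  obtain ⟨m, hm, hm0⟩ := Submodule.exists_mem_ne_zero_of_ne_bot
    (LinearMap.ker_ne_bot_of_finrank_lt (f := (adjoint (A.Z g) : E →L[ℝ] F).toLinearMap)
      (by omega))
  have hm' : adjoint (A.Z g) m = 0 := hm
  set n : E := (3 * ‖m‖⁻¹) • m with hn
  have hn1 : ‖n‖ = 3 := by
    rw [hn, norm_smul, norm_mul, norm_inv, norm_norm, mul_assoc,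
      inv_mul_cancel₀ (norm_ne_zero_iff.2 hm0)]
    simp
  have hn2 : adjoint (A.Z g) n = 0 := by rw [hn, map_smul, hm', smul_zero]
  have hN : 0 < A.N g := one_pos.trans_le (A.one_le_N g)
  calc _ = ENNReal.ofReal ((1 / 2) ^ finrank ℝ F / |(A.d g⁻¹).det|) * ν (closedBall 0 1) *
        μ (closedBall n (1 / 2)) := by
        have e : |(A.d g⁻¹).det| = A.N g := A.N_inv g
        rw [e, Measure.addHaar_closedBall_center μ n, mul_div_right_comm, mul_div_right_comm,
          ENNReal.ofReal_mul (by positivity), ENNReal.ofReal_mul (by positivity),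
          ENNReal.ofReal_toReal h1', ENNReal.ofReal_toReal h2']
    _ = _ := (vola_prod μ ν isClosed_closedBall _ (vola_det A g⁻¹) (adjoint (A.Z g))
        (by norm_num)).symm
    _ ≤ _ := by
        refine measure_mono ?_
        rintro v ⟨hx, hy⟩
        rw [← A.snd_inv] at hy
        rw [mem_closedBall_iff_norm] at hx
        have a1 : ‖v.1‖ ≤ 7 / 2 := by
          have := norm_le_norm_add_norm_sub' v.1 n
          linarith
        have a2 : 5 / 2 ≤ ‖v.1‖ := by
          have := norm_le_norm_add_norm_sub v.1 n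
          linarith
        have a3 : ‖adjoint (A.Z g) v.1‖ ≤ 1 / 2 := by
          have e : adjoint (A.Z g) v.1 = adjoint (A.Z g) (v.1 - n) := by
            rw [map_sub, hn2, sub_zero]
          have e2 : ‖adjoint (A.Z g)‖ ≤ 1 := by
            rw [LinearIsometryEquiv.norm_map]
            exact A.norm_Z_le g
          rw [e]
          exact (le_opNorm _ _).trans
            ((mul_le_of_le_one_left (norm_nonneg _) e2).trans hx)
        have a4 : ‖v.2‖ ≤ 1 := by
          have b1 := (A.ret g v).trans (mul_le_of_le_one_left (norm_nonneg _) (A.η_le_one g))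
          have b2 := norm_le_norm_add_norm_sub' v.2 (adjoint (A.Z g) v.1)
          linarith
        have a5 := A.orth g⁻¹ v
        simp only [qq] at a5
        have a6 : 1 ≤ ‖v.1‖ ^ 2 - ‖v.2‖ ^ 2 := by nlinarith [norm_nonneg v.2]
        refine ⟨⟨a6, ?_⟩, by rw [a5]; exact a6, ?_⟩
        · rw [Prod.norm_def]
          exact max_le (by linarith) (by linarith)
        · rw [Prod.norm_def]
          refine max_le ?_ (by linarith)
          refine abs_le_of_sq_le_sq' ?_ (by norm_num) |>.2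
          nlinarith [norm_nonneg v.1, norm_nonneg (A.ρ g⁻¹ v).2, sq_nonneg ‖v.2‖]

/-- Paper V2: change variables by `ρ g` (`abs_det_ρ`), then `snd_inv g⁻¹` and `slice`. -/
theorem vol_up (A : Rep Γ E F) (R : ℝ) : ∃ C : ℝ, 0 < C ∧ ∀ g (T : ℝ), 0 ≤ T →
    μ.prod ν {v | ‖v‖ ≤ T ∧ ‖A.ρ g⁻¹ v‖ ≤ R} ≤
      ENNReal.ofReal (C * T ^ finrank ℝ F / A.N g) := by
  have h1' : ν (closedBall (0 : F) 1) ≠ ⊤ := measure_closedBall_lt_top.ne
  have h2' : μ (closedBall (0 : E) R) ≠ ⊤ := measure_closedBall_lt_top.ne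
  refine ⟨(ν (closedBall (0 : F) 1)).toReal * (μ (closedBall (0 : E) R)).toReal + 1,
    by positivity, fun g T hT => ?_⟩
  have hN : 0 < A.N g := one_pos.trans_le (A.one_le_N g)
  have hd := A.abs_det_ρ g⁻¹
  have hd0 : (A.ρ g⁻¹).det ≠ 0 := by
    intro h
    rw [h, abs_zero] at hd
    exact zero_ne_one hd
  have hd1 : |(LinearMap.det (A.ρ g⁻¹ : E × F →ₗ[ℝ] E × F))⁻¹| = 1 := by
    rw [abs_inv]
    exact inv_eq_one.2 hd
  calc _ ≤ μ.prod ν (A.ρ g⁻¹ ⁻¹' {w | w.1 ∈ closedBall (0 : E) R ∧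
        ‖A.d g (w.2 - adjoint (A.Z g⁻¹) w.1)‖ ≤ T}) := by
        refine measure_mono ?_
        rintro v ⟨h1, h2⟩
        refine ⟨mem_closedBall_zero_iff.2 ((_root_.norm_fst_le _).trans h2), ?_⟩
        have e := A.snd_inv g⁻¹ (A.ρ g⁻¹ v)
        rw [inv_inv, ← A.ρ_mul, mul_inv_cancel, A.ρ_one] at e
        rw [← e]
        exact (_root_.norm_snd_le _).trans h1
    _ = ENNReal.ofReal (T ^ finrank ℝ F / A.N g) * ν (closedBall 0 1) * μ (closedBall 0 R) := by
        rw [Measure.addHaar_preimage_continuousLinearMap _ hd0, hd1, ENNReal.ofReal_one, one_mul,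
          vola_prod μ ν isClosed_closedBall _ (vola_det A g) _ hT]
        rfl
    _ ≤ _ := by
        rw [← ENNReal.ofReal_toReal h1', ← ENNReal.ofReal_toReal h2',
          ← ENNReal.ofReal_mul (by positivity), ← ENNReal.ofReal_mul (by positivity),
          ENNReal.toReal_ofReal ENNReal.toReal_nonneg, ENNReal.toReal_ofReal ENNReal.toReal_nonneg]
        refine ENNReal.ofReal_le_ofReal ?_
        have : 0 ≤ T ^ finrank ℝ F / A.N g := by positivity
        rw [mul_div_assoc]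
        nlinarith

end HP
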