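import Pool.Agent.Lib.MP_320961_gt.HP.Defs

/-! The volume of the thick quadric; bounded overlaps. -/

open scoped RealInnerProductSpace ENNReal
open ContinuousLinearMap Module MeasureTheory Set Metric

noncomputable section

namespace HP

variable {E F : Type*} [NormedAddCommGroup E] [InnerProductSpace ℝ E] [CompleteSpace E]
  [FiniteDimensional ℝ E] [NormedAddCommGroup F] [InnerProductSpace ℝ F] [CompleteSpace F]
  [FiniteDimensional ℝ F] [MeasurableSpace E] [BorelSpace E] [MeasurableSpace F] [BorelSpace F]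
  (μ : Measure E) (ν : Measure F) [μ.IsAddHaarMeasure] [ν.IsAddHaarMeasure]

omit [CompleteSpace E] in
theorem volb_shell {s₁ s₂ : ℝ} (h2 : 0 < s₂) (h : s₂ ≤ s₁) :
    ENNReal.ofReal ((s₁ ^ finrank ℝ E - s₂ ^ finrank ℝ E) * μ.real (ball 0 1)) ≤
      μ (closedBall 0 s₁ \ ball 0 s₂) := by
  have hb : μ (ball (0 : E) 1) ≠ ⊤ := measure_ball_lt_top.ne
  refine le_trans (le_of_eq ?_) le_measure_sdiff
  rw [μ.addHaar_closedBall _ (h2.le.trans h), μ.addHaar_ball_of_pos _ h2,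
    ENNReal.ofReal_mul' measureReal_nonneg, ofReal_measureReal hb,
    ENNReal.ofReal_sub _ (by positivity), ENNReal.sub_mul fun _ _ => hb]

theorem volb_pow {s₁ s₂ : ℝ} {p : ℕ} (hp : 3 ≤ p) (h1 : 1 ≤ s₂) (h : s₁ ^ 2 = s₂ ^ 2 + 3)
    (h0 : s₂ ≤ s₁) : 3 * s₂ ≤ s₁ ^ p - s₂ ^ p := by
  obtain ⟨k, rfl⟩ := Nat.exists_eq_add_of_le hp
  have h2 : s₂ ^ (k + 1) ≤ s₁ ^ (k + 1) := pow_le_pow_left₀ (by linarith) h0 _
  have h3 : s₂ ≤ s₂ ^ (k + 1) := le_self_pow₀ h1 (Nat.succ_ne_zero k)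
  have e1 : s₁ ^ (3 + k) = (s₂ ^ 2 + 3) * s₁ ^ (k + 1) := by rw [← h]; ring
  have e2 : s₂ ^ (3 + k) = s₂ ^ 2 * s₂ ^ (k + 1) := by ring
  rw [e1, e2]
  nlinarith [mul_le_mul_of_nonneg_left h2 (sq_nonneg s₂)]

/-- For `T / 2 ≤ ‖y‖ ≤ T` the slice is the shell `‖y‖² - 4 ≤ ‖x‖² ≤ ‖y‖² - 1`; with radii
`1 ≤ s₂ ≤ s₁`: `s₁ ^ p - s₂ ^ p ≥ (s₁² - s₂²) s₂ ^ (p - 2) ≥ 3 s₂`. -/
theorem vol_low (hE : 3 ≤ finrank ℝ E) [Nontrivial F] : ∃ c : ℝ, 0 < c ∧ ∀ T : ℝ, 10 ≤ T →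
    ENNReal.ofReal (c * T ^ (finrank ℝ F + 1)) ≤
      μ.prod ν {v | -4 ≤ qq v ∧ qq v ≤ -1 ∧ ‖v‖ ≤ T} := by
  have hμ : 0 < μ.real (ball (0 : E) 1) :=
    ENNReal.toReal_pos (measure_ball_pos μ _ one_pos).ne' measure_ball_lt_top.ne
  have hν : 0 < ν.real (ball (0 : F) 1) :=
    ENNReal.toReal_pos (measure_ball_pos ν _ one_pos).ne' measure_ball_lt_top.ne
  refine ⟨μ.real (ball (0 : E) 1) * ν.real (ball (0 : F) 1) / 4, by positivity, fun T hT => ?_⟩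
  have hq : Continuous (qq : E × F → ℝ) := by unfold qq; fun_prop
  have hS : MeasurableSet {v : E × F | -4 ≤ qq v ∧ qq v ≤ -1 ∧ ‖v‖ ≤ T} :=
    ((isClosed_le continuous_const hq).inter ((isClosed_le hq continuous_const).inter
      (isClosed_le continuous_norm continuous_const))).measurableSet
  rw [Measure.prod_apply_symm hS]
  have hA : MeasurableSet (closedBall (0 : F) T \ ball 0 (T / 2)) :=
    measurableSet_closedBall.diff measurableSet_ball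
  have h1 : ∀ y ∈ closedBall (0 : F) T \ ball 0 (T / 2),
      ENNReal.ofReal (T / 2 * μ.real (ball (0 : E) 1)) ≤
        μ ((fun x => (x, y)) ⁻¹' {v : E × F | -4 ≤ qq v ∧ qq v ≤ -1 ∧ ‖v‖ ≤ T}) := by
    intro y hy
    have y1 : ‖y‖ ≤ T := mem_closedBall_zero_iff.1 hy.1
    have y2 : T / 2 ≤ ‖y‖ := not_lt.1 fun h => hy.2 (mem_ball_zero_iff.2 h)
    have y3 : (T / 2) ^ 2 ≤ ‖y‖ ^ 2 := pow_le_pow_left₀ (by linarith) y2 2
    have e1 : √(‖y‖ ^ 2 - 1) ^ 2 = ‖y‖ ^ 2 - 1 := Real.sq_sqrt (by nlinarith)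
    have e2 : √(‖y‖ ^ 2 - 4) ^ 2 = ‖y‖ ^ 2 - 4 := Real.sq_sqrt (by nlinarith)
    have l2 : T / 4 ≤ √(‖y‖ ^ 2 - 4) := Real.le_sqrt_of_sq_le (by nlinarith)
    have l1 : √(‖y‖ ^ 2 - 4) ≤ √(‖y‖ ^ 2 - 1) := Real.sqrt_le_sqrt (by linarith)
    have l3 := volb_pow hE (by linarith) (by rw [e1, e2]; ring) l1
    refine le_trans (ENNReal.ofReal_le_ofReal ?_) ((volb_shell μ (by linarith) l1).trans
      (measure_mono fun x hx => ?_))
    · exact mul_le_mul_of_nonneg_right (by linarith) hμ.le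
    · have x1 : ‖x‖ ≤ √(‖y‖ ^ 2 - 1) := mem_closedBall_zero_iff.1 hx.1
      have x2 : √(‖y‖ ^ 2 - 4) ≤ ‖x‖ := not_lt.1 fun h => hx.2 (mem_ball_zero_iff.2 h)
      have x3 := pow_le_pow_left₀ (norm_nonneg x) x1 2
      have x4 := pow_le_pow_left₀ (Real.sqrt_nonneg _) x2 2
      rw [e1] at x3
      rw [e2] at x4
      refine ⟨?_, ?_, ?_⟩
      · show -4 ≤ ‖x‖ ^ 2 - ‖y‖ ^ 2
        linarith
      · show ‖x‖ ^ 2 - ‖y‖ ^ 2 ≤ -1
        linarith
      · rw [Prod.norm_mk]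
        refine max_le (le_trans ?_ y1) y1
        exact (pow_le_pow_iff_left₀ (norm_nonneg x) (norm_nonneg y) two_ne_zero).1 (by linarith)
  refine le_trans ?_ (setLIntegral_le_lintegral (closedBall (0 : F) T \ ball 0 (T / 2)) _)
  refine le_trans ?_ (setLIntegral_mono' hA h1)
  rw [setLIntegral_const]
  refine le_trans ?_ (mul_le_mul_right (volb_shell ν (by linarith) (by linarith)) _)
  rw [← ENNReal.ofReal_mul (by positivity)]
  refine ENNReal.ofReal_le_ofReal ?_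
  obtain ⟨k, hk⟩ : ∃ k, finrank ℝ F = k + 1 := ⟨finrank ℝ F - 1, by
    have := finrank_pos (R := ℝ) (M := F)
    omega⟩
  rw [hk]
  have h2 : (T / 2) ^ k ≤ T ^ k := pow_le_pow_left₀ (by linarith) (by linarith) k
  have h3 : T ^ (k + 1) / 2 ≤ T ^ (k + 1) - (T / 2) ^ (k + 1) := by
    rw [pow_succ, pow_succ]
    nlinarith
  calc μ.real (ball (0 : E) 1) * ν.real (ball (0 : F) 1) / 4 * T ^ (k + 1 + 1)
      = T / 2 * μ.real (ball (0 : E) 1) * (T ^ (k + 1) / 2 * ν.real (ball (0 : F) 1)) := by ring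
    _ ≤ _ := by gcongr

/-- Integrate the sum of the indicators. -/
theorem overlap {X ι : Type*} [MeasurableSpace X] (π : Measure X) (T : Finset ι) (W : ι → Set X)
    (K : Set X) (hW : ∀ i ∈ T, MeasurableSet (W i)) (hK : MeasurableSet K)
    (hWK : ∀ i ∈ T, W i ⊆ K) (m : ℕ)
    (hm : ∀ v ∈ K, ∀ T' ⊆ T, (∀ i ∈ T', v ∈ W i) → T'.card ≤ m) :
    ∑ i ∈ T, π (W i) ≤ m * π K := by
  classical
  have h1 : ∑ i ∈ T, π (W i) = ∫⁻ v, ∑ i ∈ T, (W i).indicator (1 : X → ℝ≥0∞) v ∂π := by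
    rw [lintegral_finsetSum _ fun i hi => measurable_one.indicator (hW i hi)]
    exact Finset.sum_congr rfl fun i hi => (lintegral_indicator_one (hW i hi)).symm
  rw [h1, ← lintegral_indicator_const hK]
  refine lintegral_mono fun v => ?_
  by_cases hv : v ∈ K
  · rw [indicator_of_mem hv]
    have h2 := hm v hv (T.filter fun i => v ∈ W i) (Finset.filter_subset _ _)
      fun i hi => (Finset.mem_filter.1 hi).2
    simp only [indicator, Pi.one_apply, Finset.sum_boole]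
    exact_mod_cast h2
  · rw [Finset.sum_eq_zero fun i hi => indicator_of_notMem (fun h => hv (hWK i hi h)) _]
    exact bot_le

theorem measurableSet_KK : MeasurableSet (KK E F) := by
  have h : Continuous fun v : E × F => ‖v.1‖ ^ 2 - ‖v.2‖ ^ 2 := by fun_prop
  exact ((isClosed_le continuous_const h).inter
    (isClosed_le continuous_norm continuous_const)).measurableSet

theorem vol_KK_lt : μ.prod ν (KK E F) < ⊤ := by
  have h : KK E F ⊆ closedBall (0 : E) 5 ×ˢ closedBall (0 : F) 5 := fun v hv =>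
    ⟨mem_closedBall_zero_iff.2 ((norm_fst_le v).trans hv.2),
      mem_closedBall_zero_iff.2 ((norm_snd_le v).trans hv.2)⟩
  refine (measure_mono h).trans_lt ?_
  rw [Measure.prod_prod]
  exact ENNReal.mul_lt_top measure_closedBall_lt_top measure_closedBall_lt_top

end HP
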