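import Pool.Agent.Lib.MP_320961_gt.HP.Sharp
import Pool.Agent.Lib.MP_320961_gt.HP.Par
import Pool.Agent.Lib.MP_320961_gt.HP.Tri
import Pool.Agent.Lib.MP_320961_gt.HP.VolA
import Pool.Agent.Lib.MP_320961_gt.HP.VolB

/-! No proper cocompact action. -/

open scoped RealInnerProductSpace ENNReal
open ContinuousLinearMap Module MeasureTheory Set Metric

noncomputable section

namespace HP

variable {E F : Type*} [NormedAddCommGroup E] [InnerProductSpace ℝ E] [CompleteSpace E]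
  [FiniteDimensional ℝ E] [NormedAddCommGroup F] [InnerProductSpace ℝ F] [CompleteSpace F]
  [FiniteDimensional ℝ F] {Γ : Type*} [Group Γ]

theorem main_lin {c : ℝ} (hc : 0 < c) (u v : ℝ) : ∃ i : ℕ, 4 ≤ i ∧ u * i + v < c * 2 ^ i := by
  have h : ∀ i : ℕ, 4 ≤ i → (i : ℝ) ^ 2 ≤ 2 ^ i := fun i hi => by
    induction i, hi using Nat.le_induction with
    | base => norm_num
    | succ k hk ih =>
      have : (4 : ℝ) ≤ k := by exact_mod_cast hk
      push_cast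
      rw [pow_succ (2 : ℝ) k]
      nlinarith
  obtain ⟨i, hi⟩ := exists_nat_ge ((|u| + |v|) / c + 4)
  have h0 : 0 ≤ (|u| + |v|) / c := by positivity
  have h4 : (4 : ℝ) ≤ i := by linarith
  refine ⟨i, by exact_mod_cast h4, ?_⟩
  have h1 : |u| + |v| + 4 * c ≤ c * i := by
    have := mul_le_mul_of_nonneg_left hi hc.le
    rwa [mul_add, mul_div_cancel₀ _ hc.ne', mul_comm c 4] at this
  have h2 := mul_le_mul_of_nonneg_left (h i (by exact_mod_cast h4)) hc.le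
  have h3 := le_abs_self u
  have h5 := le_abs_self v
  have h6 := abs_nonneg v
  have h7 := mul_le_mul_of_nonneg_right h1 (show (0 : ℝ) ≤ i by linarith)
  nlinarith

theorem Act.exists_dat [Nontrivial F] (A : Act Γ E F) : ∃ D : Dat Γ (F →L[ℝ] E),
    D.N = A.N ∧ (∀ g h, D.β g h = BB (A.Z g) (A.Z h)) ∧ ∃ C : ℝ, 1 ≤ C ∧
      (∀ g w, qq w = -1 → ‖w‖ ≤ A.R → 2 ^ D.l g ≤ C * ‖A.ρ g w‖) ∧
        ∀ g, A.η g ≤ C / 2 ^ D.l g := by
  obtain ⟨l, W, C, hC, h1, h2⟩ := A.sharp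
  obtain ⟨L, hL, hlip⟩ := BB_lip (E := E) (F := F)
  obtain ⟨B, hB⟩ := ((W.fin 1).image fun s => ‖A.b s‖).bddAbove
  have hB0 : 0 ≤ B := (norm_nonneg _).trans (hB ⟨1, by simp [W.one], rfl⟩)
  have hN : ∀ g, 0 < A.N g := fun g => zero_lt_one.trans_le (A.one_le_N g)
  have hβ : ∀ g h, A.N (g⁻¹ * h) / (A.N g * A.N h) = BB (A.Z g) (A.Z h) := fun g h => by
    rw [A.N_coc, mul_div_cancel_left₀ _ (mul_pos (hN g) (hN h)).ne']
  have hp : (0 : ℝ) < 2 ^ finrank ℝ F := by positivity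
  have hBC : 0 ≤ B * C := by positivity
  refine ⟨⟨l, W, A.N, A.Z, 2 ^ finrank ℝ F + L + B * C + C, by linarith, A.one_le_N, A.N_one,
    A.N_inv, fun g h => ?_, fun g h k => ?_, fun g s hs => ?_, fun g => ?_⟩, rfl, hβ, C, hC, h1, h2⟩
  · have h3 := A.N_coc g⁻¹ h
    rw [inv_inv, A.N_inv] at h3
    rw [h3, mul_comm]
    refine mul_le_mul_of_nonneg_right ((BB_le (A.norm_Z_le _) (A.norm_Z_le _)).trans ?_)
      (mul_pos (hN g) (hN h)).le
    linarith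
  · rw [hβ, hβ, dist_eq_norm]
    refine (hlip _ _ _ (A.norm_Z_le _) (A.norm_Z_le _) (A.norm_Z_le _)).trans
      (mul_le_mul_of_nonneg_right ?_ (norm_nonneg _))
    linarith
  · rw [dist_eq_norm]
    have h3 : ‖A.b s⁻¹‖ ≤ B := hB ⟨s⁻¹, by simp [W.inv, hs], rfl⟩
    refine (A.move g s).trans ((mul_le_mul h3 (h2 g) (norm_nonneg _) hB0).trans ?_)
    rw [← mul_div_assoc]
    exact div_le_div_of_nonneg_right (by linarith) (by positivity)
  · have h3 := A.one_le_η_N Module.finrank_pos g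
    have h4 := mul_le_mul_of_nonneg_right (h2 g) (hN g).le
    have h5 : (0 : ℝ) < 2 ^ l g := by positivity
    rw [div_mul_eq_mul_div] at h4
    have h6 := (le_div_iff₀ h5).1 (h3.trans h4)
    rw [one_mul] at h6
    exact h6.trans (mul_le_mul_of_nonneg_right (by linarith) (hN g).le)

theorem main_thin (hE : finrank ℝ E = finrank ℝ F + 1) (hF : Odd (finrank ℝ F)) (A : Rep Γ E F)
    (D : Dat Γ (F →L[ℝ] E)) (hβ : ∀ g h, D.β g h = BB (A.Z g) (A.Z h)) {C : ℝ}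
    (hη : ∀ g, A.η g ≤ C / 2 ^ D.l g) :
    D.Thin ((fun v => {h | A.ρ h⁻¹ v ∈ KK E F}) '' KK E F) := by
  intro k hk
  obtain ⟨e, he, hP⟩ := parity_near hE hF hk
  obtain ⟨r, hr⟩ := pow_unbounded_of_one_lt (5 * |C| / e) (one_lt_two (α := ℝ))
  have hsm : ∀ g, r ≤ D.l g → 5 * A.η g ≤ e := fun g hg => by
    have h1 : (2 : ℝ) ^ r ≤ 2 ^ D.l g := pow_le_pow_right₀ one_le_two hg
    have h2 : (0 : ℝ) < 2 ^ D.l g := by positivity
    have h3 := (le_div_iff₀ h2).1 (hη g)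
    have h4 := (div_lt_iff₀ he).1 (hr.trans_le h1)
    have h5 := le_abs_self C
    refine le_of_mul_le_mul_right ?_ h2
    nlinarith
  refine ⟨r, ?_⟩
  rintro _ ⟨v, hv, rfl⟩ o h₁ m₁ h₂ m₂ h₃ m₃ r₁ r₂ r₃
  have key : ∀ h, A.ρ h⁻¹ v ∈ KK E F → r ≤ D.l (o⁻¹ * h) →
      (∀ u, ‖u‖ ^ 2 - ‖A.Z (o⁻¹ * h) u‖ ^ 2 ≤ e * ‖u‖ ^ 2) ∧
        ‖(A.ρ o⁻¹ v).2 - adjoint (A.Z (o⁻¹ * h)) (A.ρ o⁻¹ v).1‖ ≤ e := fun h hm hr => by
    have h0 : 0 ≤ A.η (o⁻¹ * h) := norm_nonneg _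
    have h1 := hsm _ hr
    refine ⟨fun u => ?_, (A.ret _ _).trans ?_⟩
    · rw [A.norm_Z_sq, sub_sub_cancel]
      have h2 : ‖A.di (o⁻¹ * h) u‖ ≤ A.η (o⁻¹ * h) * ‖u‖ := le_opNorm _ _
      have h3 := pow_le_pow_left₀ (norm_nonneg _) h2 2
      have h4 := A.η_le_one (o⁻¹ * h)
      rw [mul_pow] at h3
      exact h3.trans (mul_le_mul_of_nonneg_right (by nlinarith) (sq_nonneg _))
    · rw [← A.ρ_mul, mul_inv_rev, inv_inv, mul_inv_cancel_right]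
      have h2 := (norm_snd_le (A.ρ h⁻¹ v)).trans hm.2
      nlinarith
  have hx : 1 ≤ ‖(A.ρ o⁻¹ v).1‖ := by
    have h1 := A.orth o⁻¹ v
    have h2 := hv.1
    unfold qq at h1
    refine (one_le_sq_iff₀ (norm_nonneg _)).1 ?_
    nlinarith [sq_nonneg ‖(A.ρ o⁻¹ v).2‖]
  rw [hβ, hβ, hβ]
  refine hP ![A.Z (o⁻¹ * h₁), A.Z (o⁻¹ * h₂), A.Z (o⁻¹ * h₃)] _ (A.ρ o⁻¹ v).2 ?_ ?_ hx ?_
  · intro i
    fin_cases i <;> exact A.norm_Z_le _
  · intro i
    fin_cases i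
    exacts [(key _ m₁ r₁).1, (key _ m₂ r₂).1, (key _ m₃ r₃).1]
  · intro i
    fin_cases i
    exacts [(key _ m₁ r₁).2, (key _ m₂ r₂).2, (key _ m₃ r₃).2]

theorem main_growth (hE : finrank ℝ E = finrank ℝ F + 1) (A : Rep Γ E F)
    (D : Dat Γ (F →L[ℝ] E)) (hN : D.N = A.N)
    (hT : D.Thin ((fun v => {h | A.ρ h⁻¹ v ∈ KK E F}) '' KK E F)) :
    ∃ C : ℝ, ∀ S : ℝ, 0 < S → ∀ T : Finset Γ, (∀ g ∈ T, S ≤ D.N g ∧ D.N g ≤ 2 * S) →
      (T.card : ℝ) ≤ C * S := by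
  borelize E F
  set π := (Measure.addHaar : Measure E).prod (Measure.addHaar : Measure F) with hπ
  obtain ⟨m, hm⟩ := D.count hT (by
    rintro _ ⟨v, hv, rfl⟩
    simpa [A.ρ_one] using hv)
  obtain ⟨c, hc, hv⟩ := vol_ret (Measure.addHaar : Measure E) (Measure.addHaar : Measure F) hE A
  have hK : π (KK E F) ≠ ⊤ := (vol_KK_lt _ _).ne
  refine ⟨2 * (m * (π (KK E F)).toReal) / c, fun S hS T hTS => ?_⟩
  have h1 := overlap π T (fun g => {v | v ∈ KK E F ∧ A.ρ g⁻¹ v ∈ KK E F}) (KK E F)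
    (fun g _ => measurableSet_KK.inter ((A.ρ g⁻¹).continuous.measurable measurableSet_KK))
    measurableSet_KK (fun g _ v h => h.1) m fun v hv T' hT' h =>
      hm _ ⟨v, hv, rfl⟩ S hS T' fun g hg => ⟨(h g hg).2, hTS g (hT' hg)⟩
  have h2 : ∑ _g ∈ T, ENNReal.ofReal (c / (2 * S)) ≤ m * π (KK E F) := by
    refine le_trans (Finset.sum_le_sum fun g hg => le_trans ?_ (hv g)) h1
    refine ENNReal.ofReal_le_ofReal (div_le_div_of_nonneg_left hc.le ?_ ?_)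
    · exact zero_lt_one.trans_le (A.one_le_N g)
    · rw [← hN]; exact (hTS g hg).2
  rw [Finset.sum_const, nsmul_eq_mul] at h2
  have h3 := ENNReal.toReal_mono (ENNReal.mul_ne_top (ENNReal.natCast_ne_top m) hK) h2
  rw [ENNReal.toReal_mul, ENNReal.toReal_mul, ENNReal.toReal_natCast, ENNReal.toReal_natCast,
    ENNReal.toReal_ofReal (by positivity), ← mul_div_assoc, div_le_iff₀ (by positivity)] at h3
  rw [div_mul_eq_mul_div, le_div_iff₀ hc]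
  linarith

theorem Act.false (hE : finrank ℝ E = finrank ℝ F + 1) (hF : Odd (finrank ℝ F))
    (h3 : 3 ≤ finrank ℝ F) (A : Act Γ E F) : False := by
  have : Nontrivial F := Module.nontrivial_of_finrank_pos (R := ℝ) (by omega)
  obtain ⟨D, hN, hβ, C, hC, hs, hη⟩ := A.exists_dat
  obtain ⟨C₁, hg⟩ := main_growth hE A.toRep D hN (main_thin hE hF A.toRep D hβ hη)
  obtain ⟨C₀, hC₀, hl, -⟩ := D.shift
  obtain ⟨a, ha⟩ := pow_unbounded_of_one_lt C (one_lt_two (α := ℝ))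
  obtain ⟨e, he⟩ := pow_unbounded_of_one_lt C₀ (one_lt_two (α := ℝ))
  borelize E F
  set π := (Measure.addHaar : Measure E).prod (Measure.addHaar : Measure F) with hπ
  obtain ⟨c, hc, hlow⟩ := vol_low (Measure.addHaar : Measure E) (Measure.addHaar : Measure F)
    (by omega)
  obtain ⟨C₂, hC₂, hup⟩ := vol_up (Measure.addHaar : Measure E) (Measure.addHaar : Measure F)
    A.toRep (2 * A.R)
  obtain ⟨i, hi, hlt⟩ := main_lin hc (C₂ * C₁ * e) (C₂ * C₁ * (e * a + 1))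
  have hT : (10 : ℝ) ≤ 2 ^ i :=
    le_trans (by norm_num) (pow_le_pow_right₀ (one_le_two (α := ℝ)) hi)
  set G := (D.wl.fin (a + i)).toFinset with hG
  have hcov : {v : E × F | -4 ≤ qq v ∧ qq v ≤ -1 ∧ ‖v‖ ≤ 2 ^ i} ⊆
      ⋃ g ∈ G, {v | ‖v‖ ≤ 2 ^ i ∧ ‖A.ρ g⁻¹ v‖ ≤ 2 * A.R} := by
    rintro v ⟨h1, h2, h4⟩
    set s := Real.sqrt (-qq v) with hs'
    have s2 : s ^ 2 = -qq v := Real.sq_sqrt (by linarith)
    have s0 : 0 ≤ s := Real.sqrt_nonneg _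
    have s1 : 1 ≤ s := by nlinarith
    have s3 : s ≤ 2 := by nlinarith
    have sp : 0 < s := by linarith
    have hq : qq (s⁻¹ • v) = -1 := by
      have : qq (s⁻¹ • v) = s⁻¹ ^ 2 * qq v := by
        simp only [qq, Prod.smul_fst, Prod.smul_snd, norm_smul, mul_pow, Real.norm_eq_abs, sq_abs]
        ring
      rw [this, ← neg_neg (qq v), ← s2]
      field_simp
    obtain ⟨g, hg⟩ := A.cocomp _ hq
    have h5 := hs g _ ((A.orth _ _).trans hq) hg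
    rw [← A.ρ_mul, mul_inv_cancel, A.ρ_one, norm_smul, Real.norm_eq_abs,
      abs_of_pos (inv_pos.2 sp)] at h5
    have h6 : s⁻¹ * ‖v‖ ≤ 2 ^ i :=
      (mul_le_of_le_one_left (norm_nonneg _) (inv_le_one_of_one_le₀ s1)).trans h4
    have h7 : (2 : ℝ) ^ D.l g ≤ 2 ^ (a + i) := by
      rw [pow_add]
      exact h5.trans (mul_le_mul ha.le h6 (by positivity) (by positivity))
    rw [map_smul, norm_smul, Real.norm_eq_abs, abs_of_pos (inv_pos.2 sp),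
      inv_mul_le_iff₀ sp] at hg
    refine mem_iUnion₂.2 ⟨g, (D.wl.fin (a + i)).mem_toFinset.2
      ((pow_le_pow_iff_right₀ one_lt_two).1 h7), h4, hg.trans ?_⟩
    exact mul_le_mul_of_nonneg_right s3 (zero_le_one.trans A.one_le_R)
  have hsum := D.shells hg (e * (a + i)) G fun g hg => by
    refine (hl g).trans ?_
    rw [pow_mul]
    exact (pow_le_pow_left₀ (by linarith) he.le _).trans (pow_le_pow_right₀
      (one_le_pow₀ one_le_two) ((D.wl.fin (a + i)).mem_toFinset.1 hg))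
  have h1 := (hlow _ hT).trans ((measure_mono hcov).trans ((measure_biUnion_finset_le _ _).trans
    (Finset.sum_le_sum fun g _ => hup g _ (by positivity))))
  have hN0 : ∀ g, 0 < A.N g := fun g => zero_lt_one.trans_le (A.one_le_N g)
  rw [← ENNReal.ofReal_sum_of_nonneg fun g _ => by have := hN0 g; positivity,
    ENNReal.ofReal_le_ofReal_iff (Finset.sum_nonneg fun g _ => by have := hN0 g; positivity)] at h1
  have h2 : ∑ g ∈ G, C₂ * (2 ^ i) ^ finrank ℝ F / A.N g =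
      C₂ * (2 ^ i) ^ finrank ℝ F * ∑ g ∈ G, 1 / D.N g := by
    rw [Finset.mul_sum, hN]
    exact Finset.sum_congr rfl fun g _ => by rw [mul_one_div]
  have hp : (0 : ℝ) < (2 ^ i) ^ finrank ℝ F := by positivity
  have h4 := mul_le_mul_of_nonneg_left hsum (mul_pos hC₂ hp).le
  rw [h2, pow_succ] at h1
  have h5 := mul_lt_mul_of_pos_left hlt hp
  push_cast at h4
  nlinarith

theorem no_action (hE : finrank ℝ E = finrank ℝ F + 1) (hF : Odd (finrank ℝ F))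
    (h3 : 3 ≤ finrank ℝ F) (ρ : Γ →* (E × F →L[ℝ] E × F)) (ho : ∀ g v, qq (ρ g v) = qq v)
    (hp : ∀ T : ℝ, {g | ∃ w, qq w = -1 ∧ ‖w‖ ≤ T ∧ ‖ρ g w‖ ≤ T}.Finite)
    (hc : ∃ R : ℝ, ∀ v, qq v = -1 → ∃ g, ‖ρ g⁻¹ v‖ ≤ R) : False := by
  obtain ⟨R, hR⟩ := hc
  exact Act.false hE hF h3 ⟨⟨ρ, ho⟩, max R 1, le_max_right _ _, hp, fun v hv =>
    (hR v hv).imp fun _ h => h.trans (le_max_left _ _)⟩

end HP
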