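import Pool.Agent.Lib.MP_320961_gt.HP.Main

/-! From the homogeneous space to the quadric. -/

open Matrix MulAction Set Topology LieAlgebra.Orthogonal

noncomputable section

namespace HP

variable {m n : Type} [Fintype m] [Fintype n] [DecidableEq m] [DecidableEq n]

/-- Coordinates. -/
def co (m n : Type) [Fintype m] [Fintype n] :
    (m ⊕ n → ℝ) ≃L[ℝ] EuclideanSpace ℝ m × EuclideanSpace ℝ n :=
  ((LinearEquiv.sumArrowLequivProdArrow m n ℝ ℝ).trans
    ((WithLp.linearEquiv 2 ℝ (m → ℝ)).symm.prodCongr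
      (WithLp.linearEquiv 2 ℝ (n → ℝ)).symm)).toContinuousLinearEquiv

theorem qq_co (v : m ⊕ n → ℝ) : qq (co m n v) = v ⬝ᵥ indefiniteDiagonal m n ℝ *ᵥ v := by
  rw [qq, EuclideanSpace.real_norm_sq_eq, EuclideanSpace.real_norm_sq_eq]
  simp [co, indefiniteDiagonal, dotProduct, mulVec_diagonal, Fintype.sum_sum_type, sq,
    sub_eq_add_neg]

omit [DecidableEq m] [DecidableEq n] in
theorem red_orth {g J : Matrix (m ⊕ n) (m ⊕ n) ℝ} (hg : gᵀ * J * g = J) (v : m ⊕ n → ℝ) :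
    (g *ᵥ v) ⬝ᵥ J *ᵥ (g *ᵥ v) = v ⬝ᵥ J *ᵥ v := by
  conv_rhs => rw [← hg]
  rw [← mulVec_mulVec, ← mulVec_mulVec, dotProduct_mulVec v, vecMul_transpose]

/-- The reflection in an anisotropic vector. -/
theorem red_refl {ι : Type} [Fintype ι] [DecidableEq ι] {J : Matrix ι ι ℝ} (hJ : Jᵀ = J)
    {u : ι → ℝ} (hu : u ⬝ᵥ J *ᵥ u ≠ 0) : ∃ r : Matrix ι ι ℝ, r * r = 1 ∧ rᵀ * J * r = J ∧
      ∀ v, r *ᵥ v = v - (2 * (u ⬝ᵥ J *ᵥ v) / (u ⬝ᵥ J *ᵥ u)) • u := by
  set c := u ⬝ᵥ J *ᵥ u with hc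
  have hs : ∀ a b : ι → ℝ, a ⬝ᵥ J *ᵥ b = b ⬝ᵥ J *ᵥ a := fun a b => by
    rw [dotProduct_mulVec, ← mulVec_transpose, hJ, dotProduct_comm]
  have hr : ∀ v, (1 - (2 / c) • vecMulVec u (J *ᵥ u)) *ᵥ v =
      v - (2 * (u ⬝ᵥ J *ᵥ v) / c) • u := fun v => by
    rw [sub_mulVec, one_mulVec, smul_mulVec, vecMulVec_mulVec, dotProduct_comm, hs v u]
    ext i
    simp only [Pi.sub_apply, Pi.smul_apply, smul_eq_mul, MulOpposite.smul_eq_mul_unop,
      MulOpposite.unop_op]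
    ring
  refine ⟨_, ?_, ?_, hr⟩
  · refine Matrix.ext_iff_smul.2 fun v => ?_
    rw [smul_eq_mulVec, smul_eq_mulVec, ← mulVec_mulVec, hr, hr, one_mulVec, mulVec_sub,
      mulVec_smul, dotProduct_sub, dotProduct_smul, ← hc, smul_eq_mul, sub_sub, ← add_smul]
    have : 2 * (u ⬝ᵥ J *ᵥ v) / c +
        2 * (u ⬝ᵥ J *ᵥ v - 2 * (u ⬝ᵥ J *ᵥ v) / c * c) / c = 0 := by
      field_simp
      ring
    rw [this, zero_smul, sub_zero]
  · refine Matrix.ext_iff_smul.2 fun v => dotProduct_eq _ _ fun w => ?_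
    rw [smul_eq_mulVec, smul_eq_mulVec, ← mulVec_mulVec, ← mulVec_mulVec, dotProduct_comm,
      dotProduct_mulVec w, vecMul_transpose, hr, hr, dotProduct_comm (J *ᵥ v) w]
    simp only [mulVec_sub, mulVec_smul, dotProduct_sub, sub_dotProduct, dotProduct_smul,
      smul_dotProduct, smul_eq_mul, ← hc, hs w u]
    field_simp
    ring

/-- Witt: the orthogonal group is transitive on the quadric. -/
theorem red_witt {ι : Type} [Fintype ι] [DecidableEq ι] {J : Matrix ι ι ℝ} (hJ : Jᵀ = J)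
    {e v : ι → ℝ} (he : e ⬝ᵥ J *ᵥ e = -1) (hv : v ⬝ᵥ J *ᵥ v = -1) :
    ∃ g : GL ι ℝ, (g : Matrix ι ι ℝ)ᵀ * J * g = J ∧ g • e = v := by
  have hs : e ⬝ᵥ J *ᵥ v = v ⬝ᵥ J *ᵥ e := by
    rw [dotProduct_mulVec, ← mulVec_transpose, hJ, dotProduct_comm]
  by_cases h : v ⬝ᵥ J *ᵥ e = -1
  · have hq : (v + e) ⬝ᵥ J *ᵥ (v + e) = -4 := by
      rw [mulVec_add, add_dotProduct, dotProduct_add, dotProduct_add, he, hv, hs, h]
      norm_num
    obtain ⟨r, h1, h2, h3⟩ := red_refl hJ (u := v + e) (by rw [hq]; norm_num)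
    refine ⟨⟨-r, -r, by simpa using h1, by simpa using h1⟩, by simpa using h2, ?_⟩
    change (-r) *ᵥ e = v
    rw [neg_mulVec, h3, hq, add_dotProduct, he, h]
    norm_num
  · have hq : (v - e) ⬝ᵥ J *ᵥ (v - e) = -2 * (v ⬝ᵥ J *ᵥ e + 1) := by
      rw [mulVec_sub, sub_dotProduct, dotProduct_sub, dotProduct_sub, he, hv, hs]
      ring
    have h0 : v ⬝ᵥ J *ᵥ e + 1 ≠ 0 := fun h' => h (by linarith)
    obtain ⟨r, h1, h2, h3⟩ := red_refl hJ (u := v - e) (by rw [hq]; simpa using h0)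
    refine ⟨⟨r, r, h1, h1⟩, h2, ?_⟩
    change r *ᵥ e = v
    have : 2 * (v ⬝ᵥ J *ᵥ e - -1) / (-2 * (v ⬝ᵥ J *ᵥ e + 1)) = -1 := by
      field_simp
      ring
    rw [h3, hq, sub_dotProduct, he, this]
    simp

/-- Compact subsets of the quadric have compact preimages in the homogeneous space. -/
theorem red_compact {ι : Type} [Fintype ι] [DecidableEq ι] {J : Matrix ι ι ℝ} {e : ι → ℝ}
    (G : Subgroup (GL ι ℝ)) (hcl : IsClosed (G : Set (GL ι ℝ)))
    (hG : ∀ (g : G) v, v ⬝ᵥ J *ᵥ v = -1 → (g • v) ⬝ᵥ J *ᵥ (g • v) = -1) (he : e ⬝ᵥ J *ᵥ e = -1)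
    (ht : ∀ v, v ⬝ᵥ J *ᵥ v = -1 → ∃ g : G, g • e = v) :
    IsInducing (ofQuotientStabilizer G e) := by
  have : ContinuousSMul (Matrix ι ι ℝ) (ι → ℝ) := ⟨continuous_fst.matrix_mulVec continuous_snd⟩
  let X : SubMulAction G (ι → ℝ) := ⟨{v | v ⬝ᵥ J *ᵥ v = -1}, fun g v h => hG g v h⟩
  have hX : IsClosed (X : Set (ι → ℝ)) :=
    isClosed_eq (continuous_id.dotProduct (continuous_const.matrix_mulVec continuous_id))
      continuous_const
  have : LocallyCompactSpace X := hX.locallyCompactSpace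
  have : ContinuousSMul G X := ⟨(continuous_fst.smul (continuous_subtype_val.comp
    continuous_snd)).subtype_mk _⟩
  have : SecondCountableTopology (Matrix ι ι ℝ) :=
    inferInstanceAs (SecondCountableTopology (ι → ι → ℝ))
  have : LocallyCompactSpace (Matrix ι ι ℝ) := inferInstanceAs (LocallyCompactSpace (ι → ι → ℝ))
  have : SecondCountableTopology (Matrix ι ι ℝ)ᵐᵒᵖ :=
    MulOpposite.opHomeomorph.symm.secondCountableTopology
  have : SecondCountableTopology (GL ι ℝ) := Units.isInducing_embedProduct.secondCountableTopology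
  have : SigmaCompactSpace G := hcl.sigmaCompactSpace
  have : IsPretransitive G X := ⟨fun x y => by
    obtain ⟨a, ha⟩ := ht x x.2
    obtain ⟨b, hb⟩ := ht y y.2
    exact ⟨b * a⁻¹, Subtype.ext (by
      change (b * a⁻¹) • (x : ι → ℝ) = y
      rw [← ha, mul_smul, inv_smul_smul, hb])⟩⟩
  have ho := isOpenMap_smul_of_sigmaCompact (G := G) (⟨e, he⟩ : X)
  let f : G ⧸ stabilizer G e → X := fun x => ⟨ofQuotientStabilizer G e x, by
    obtain ⟨g, rfl⟩ := QuotientGroup.mk_surjective x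
    exact hG g e he⟩
  have hc : Continuous f := (QuotientGroup.isQuotientMap_mk _).continuous_iff.2
    ((continuous_id.smul continuous_const).subtype_mk _)
  have hi : Function.Injective f := fun x y h =>
    injective_ofQuotientStabilizer G e (congrArg Subtype.val h)
  have hf : IsOpenMap f := fun U hU => by
    have : f '' U = (fun g : G => g • (⟨e, he⟩ : X)) '' (QuotientGroup.mk ⁻¹' U) := by
      conv_lhs => rw [← image_preimage_eq U QuotientGroup.mk_surjective, image_image]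
      rfl
    rw [this]
    exact ho _ (hU.preimage QuotientGroup.continuous_mk)
  exact IsInducing.subtypeVal.comp (IsOpenEmbedding.of_continuous_injective_isOpenMap hc hi
    hf).isInducing

theorem no_form (hm : Fintype.card m = Fintype.card n + 1) (hn : Odd (Fintype.card n))
    (h3 : 3 ≤ Fintype.card n) (j : n) (G : Subgroup (GL (m ⊕ n) ℝ))
    (hcl : IsClosed (G : Set (GL (m ⊕ n) ℝ)))
    (hG : ∀ g ∈ G, (g : Matrix (m ⊕ n) (m ⊕ n) ℝ)ᵀ * indefiniteDiagonal m n ℝ * g =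
      indefiniteDiagonal m n ℝ)
    (ht : ∀ g : GL (m ⊕ n) ℝ, (g : Matrix (m ⊕ n) (m ⊕ n) ℝ)ᵀ * indefiniteDiagonal m n ℝ * g =
      indefiniteDiagonal m n ℝ → ∃ g' ∈ G, g' • (Pi.single (Sum.inr j) 1 : m ⊕ n → ℝ) =
        g • (Pi.single (Sum.inr j) 1 : m ⊕ n → ℝ))
    (Γ : Subgroup G)
    (hp : ProperlyDiscontinuousSMul Γ (G ⧸ stabilizer G (Pi.single (Sum.inr j) 1 : m ⊕ n → ℝ)))
    (hc : CompactSpace (orbitRel.Quotient Γ
      (G ⧸ stabilizer G (Pi.single (Sum.inr j) 1 : m ⊕ n → ℝ)))) : False := by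
  set e : m ⊕ n → ℝ := Pi.single (Sum.inr j) 1 with he'
  set J := indefiniteDiagonal m n ℝ with hJ
  have he : e ⬝ᵥ J *ᵥ e = -1 := by
    simp [he', hJ, indefiniteDiagonal]
  have ho : ∀ (g : G) v, (g • v) ⬝ᵥ J *ᵥ (g • v) = v ⬝ᵥ J *ᵥ v := fun g v => red_orth (hG g g.2) v
  have ht' : ∀ v, v ⬝ᵥ J *ᵥ v = -1 → ∃ g : G, g • e = v := fun v hv => by
    obtain ⟨g, h1, h2⟩ := red_witt (by simp [hJ, indefiniteDiagonal]) he hv
    obtain ⟨g', h3, h4⟩ := ht g h1
    exact ⟨⟨g', h3⟩, h4.trans h2⟩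
  have hf := red_compact G hcl (fun g v h => (ho g v).trans h) he ht'
  set f := ofQuotientStabilizer G e with hf'
  have hfs : ∀ (γ : Γ) x, f (γ • x) = (γ : G) • f x := fun γ x =>
    ofQuotientStabilizer_smul G e γ x
  let ρ : Γ →* (EuclideanSpace ℝ m × EuclideanSpace ℝ n →L[ℝ]
      EuclideanSpace ℝ m × EuclideanSpace ℝ n) :=
    { toFun := fun γ => (co m n : _ →L[ℝ] _).comp ((LinearMap.toContinuousLinearMap
        (toLin' (((γ : G) : GL (m ⊕ n) ℝ) : Matrix (m ⊕ n) (m ⊕ n) ℝ))).comp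
          ((co m n).symm : _ →L[ℝ] _))
      map_one' := ContinuousLinearMap.ext fun v => by simp
      map_mul' := fun a b => ContinuousLinearMap.ext fun v => by simp }
  have hρ : ∀ (γ : Γ) v, ρ γ (co m n v) = co m n ((γ : G) • v) := fun γ v => by
    simp only [ρ, MonoidHom.coe_mk, OneHom.coe_mk, ContinuousLinearMap.comp_apply,
      ContinuousLinearEquiv.coe_coe, ContinuousLinearEquiv.symm_apply_apply]
    rfl
  refine no_action (by simpa using hm) (by simpa using hn) (by simpa using h3) ρ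
    (fun γ v => ?_) (fun T => ?_) ?_
  · obtain ⟨v, rfl⟩ := (co m n).surjective v
    rw [hρ, qq_co, qq_co, ho]
  · have hK : IsCompact (co m n ⁻¹' ({w | qq w = -1} ∩ Metric.closedBall 0 T)) :=
      (co m n).toHomeomorph.isCompact_preimage.2 ((isCompact_closedBall 0 T).inter_left
        (isClosed_eq (by unfold qq; fun_prop) continuous_const))
    have hK' := hf.isCompact_preimage' hK fun v hv => by
      obtain ⟨g, hg⟩ := ht' v ((qq_co v).symm.trans hv.1)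
      exact ⟨QuotientGroup.mk g, hg⟩
    refine (hp.finite_disjoint_inter_image hK' hK').subset ?_
    rintro γ ⟨w, h1, h2, h4⟩
    obtain ⟨v, rfl⟩ := (co m n).surjective w
    obtain ⟨g, rfl⟩ := ht' v ((qq_co v).symm.trans h1)
    refine ⟨_, ⟨QuotientGroup.mk g, ⟨h1, mem_closedBall_zero_iff.2 h2⟩, rfl⟩, ?_⟩
    have h5 : f (γ • QuotientGroup.mk g) = (γ : G) • g • e := hfs γ _
    rw [mem_preimage, h5]
    refine ⟨?_, mem_closedBall_zero_iff.2 (hρ γ _ ▸ h4)⟩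
    change qq _ = _
    rw [qq_co, ho, ho, he]
  · have : ContinuousConstSMul Γ (G ⧸ stabilizer G e) :=
      ⟨fun γ => continuous_const_smul (γ : G)⟩
    let U : ℕ → Set (orbitRel.Quotient Γ (G ⧸ stabilizer G e)) :=
      fun k => Quotient.mk (orbitRel Γ _) '' {x | ‖co m n (f x)‖ < k}
    have hU : ∀ k, IsOpen (U k) := fun k => isOpenMap_quotient_mk'_mul _
      (isOpen_lt ((co m n).continuous.comp hf.continuous).norm continuous_const)
    obtain ⟨k, hk⟩ := isCompact_univ.elim_directed_cover U hU (fun y _ => by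
      obtain ⟨x, rfl⟩ := Quotient.mk_surjective y
      obtain ⟨k, hk⟩ := exists_nat_gt ‖co m n (f x)‖
      exact mem_iUnion.2 ⟨k, x, hk, rfl⟩) (Monotone.directed_le fun a b h =>
        image_mono fun x hx => mem_ofPred.2 ((mem_ofPred.1 hx).trans_le (Nat.cast_le.2 h)))
    refine ⟨k, fun w hw => ?_⟩
    obtain ⟨v, rfl⟩ := (co m n).surjective w
    obtain ⟨g, rfl⟩ := ht' v ((qq_co v).symm.trans hw)
    obtain ⟨x, h1, h2⟩ := hk (mem_univ (Quotient.mk (orbitRel Γ _) (QuotientGroup.mk g)))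
    obtain ⟨γ, rfl⟩ := (orbitRel_apply.1 (Quotient.exact h2) :)
    refine ⟨γ⁻¹, ?_⟩
    rw [inv_inv, hρ]
    have h4 : ‖co m n (f (γ • QuotientGroup.mk g))‖ < k := h1
    rw [hfs] at h4
    exact h4.le

end HP
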