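import Pool.Agent.Lib.MP_320961_gt.HP.Blk
import Pool.Agent.Lib.MP_320961_gt.HP.Word

/-! Sharpness. -/

open scoped RealInnerProductSpace
open ContinuousLinearMap Module

noncomputable section

namespace HP

variable {E F : Type*} [NormedAddCommGroup E] [InnerProductSpace ℝ E] [CompleteSpace E]
  [FiniteDimensional ℝ E] [NormedAddCommGroup F] [InnerProductSpace ℝ F] [CompleteSpace F]
  [FiniteDimensional ℝ F]

variable {Γ : Type*} [Group Γ]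

/-- `Z = Z g⁻¹`, `w = (x, y)`, `w₂ = (x + 3/5 Z y - 1/5 (x - Z Z* x), y + 3/5 Z* x)`,
`v = 3/5 y + 1/5 Z* x`. Then `-qq w₂ = 16/25 (-qq w) + ‖v‖² - ‖Z v‖²` and
`w₂.2 - Z* w₂.1 = 2/5 (y - Z* x) + (v - Z* Z v)`; use `snd_inv g⁻¹`, `ZZ`, `d g ∘ (di g⁻¹)* = 1`.
Divide `w₂` by `√(-qq w₂) ≥ 4/5`. -/
theorem Rep.step (A : Rep Γ E F) (g : Γ) {w : E × F} (hw : qq w = -1) :
    ∃ w', qq w' = -1 ∧ ‖w'‖ ≤ 3 * ‖w‖ ∧ ‖(A.ρ g w').2‖ ≤ ‖(A.ρ g w).2‖ / 2 + 2 * ‖w‖ := by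
  obtain ⟨x, y⟩ := w
  set Z := A.Z g⁻¹ with hZ
  set u : F := adjoint Z x with hu
  set v : F := (3 / 5 : ℝ) • y + (1 / 5 : ℝ) • u with hv
  set w₂ : E × F := ((4 / 5 : ℝ) • x + Z v, y + (3 / 5 : ℝ) • u) with hw₂
  have hZ1 : ‖Z‖ ≤ 1 := A.norm_Z_le g⁻¹
  have hZa : ‖adjoint Z‖ ≤ 1 := by rwa [LinearIsometryEquiv.norm_map]
  have hx : ‖x‖ ≤ ‖(x, y)‖ := norm_fst_le (x, y)
  have hy : ‖y‖ ≤ ‖(x, y)‖ := norm_snd_le (x, y)
  have hux : ‖u‖ ≤ ‖x‖ := by simpa using (adjoint Z).le_of_opNorm_le hZa x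
  have hvw : ‖v‖ ≤ 4 / 5 * ‖(x, y)‖ := by
    refine (norm_add_le _ _).trans ?_
    rw [norm_smul, norm_smul, Real.norm_of_nonneg (by norm_num), Real.norm_of_nonneg (by norm_num)]
    linarith
  have hZv : ‖Z v‖ ≤ ‖v‖ := by simpa using Z.le_of_opNorm_le hZ1 v
  have hq : -qq w₂ = 16 / 25 + ‖v‖ ^ 2 - ‖Z v‖ ^ 2 := by
    have e1 : ⟪x, Z v⟫ = ⟪u, v⟫ := by rw [hu, adjoint_inner_left]
    have e2 : ⟪u, v⟫ = 3 / 5 * ⟪y, u⟫ + 1 / 5 * ‖u‖ ^ 2 := by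
      rw [hv, inner_add_right, inner_smul_right, inner_smul_right, real_inner_self_eq_norm_sq,
        real_inner_comm]
    have e3 : ‖v‖ ^ 2 = 9 / 25 * ‖y‖ ^ 2 + 6 / 25 * ⟪y, u⟫ + 1 / 25 * ‖u‖ ^ 2 := by
      rw [hv, norm_add_sq_real, norm_smul, norm_smul, inner_smul_left, inner_smul_right]
      simp only [Real.norm_eq_abs, mul_pow, sq_abs, conj_trivial]; ring
    have e4 : ‖x‖ ^ 2 - ‖y‖ ^ 2 = -1 := hw
    simp only [qq, hw₂]
    rw [norm_add_sq_real, norm_add_sq_real, norm_smul, norm_smul, inner_smul_left,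
      inner_smul_right, e1, e2, e3]
    simp only [Real.norm_eq_abs, mul_pow, sq_abs, conj_trivial]
    linarith
  have hq' : 16 / 25 ≤ -qq w₂ := by
    rw [hq]; nlinarith [norm_nonneg (Z v)]
  set c := √(-qq w₂) with hc
  have hc1 : 4 / 5 ≤ c := Real.le_sqrt_of_sq_le (by linarith)
  have hc0 : 0 < c := by linarith
  have hc2 : c ^ 2 = -qq w₂ := Real.sq_sqrt (by linarith)
  have hci : c⁻¹ ≤ 5 / 4 := by
    rw [inv_le_comm₀ hc0 (by norm_num)]; linarith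
  have hn : ‖w₂‖ ≤ 8 / 5 * ‖(x, y)‖ := by
    refine max_le ((norm_add_le _ _).trans ?_) ((norm_add_le _ _).trans ?_)
    · rw [norm_smul, Real.norm_of_nonneg (by norm_num)]; linarith
    · rw [norm_smul, Real.norm_of_nonneg (by norm_num)]; linarith
  have h2 : ∀ z : E × F, (A.ρ g z).2 = A.d g (z.2 - adjoint Z z.1) := fun z => by
    simpa using A.snd_inv g⁻¹ z
  have h3 : (A.ρ g w₂).2 = (2 / 5 : ℝ) • (A.ρ g (x, y)).2 + A.di g⁻¹ v := by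
    have e1 : A.di g⁻¹ v = A.d g (v - adjoint Z (Z v)) := by
      rw [hZ, A.ZZ, A.di_inv g, adjoint_adjoint, A.d_di]
    rw [h2, h2, e1, ← map_smul, ← map_add]
    congr 1
    simp only [hw₂, map_add, map_smul, ← hu]
    rw [hv]
    module
  have h4 : ‖A.di g⁻¹ v‖ ≤ ‖v‖ := by simpa using (A.di g⁻¹).le_of_opNorm_le (A.η_le_one g⁻¹) v
  have h5 : ‖(A.ρ g w₂).2‖ ≤ 2 / 5 * ‖(A.ρ g (x, y)).2‖ + 4 / 5 * ‖(x, y)‖ := by
    rw [h3]
    refine (norm_add_le _ _).trans ?_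
    rw [norm_smul, Real.norm_of_nonneg (by norm_num)]; linarith
  refine ⟨c⁻¹ • w₂, ?_, ?_, ?_⟩
  · have : qq (c⁻¹ • w₂) = c⁻¹ ^ 2 * qq w₂ := by
      simp only [qq, Prod.smul_fst, Prod.smul_snd, norm_smul, mul_pow, Real.norm_eq_abs, sq_abs]
      ring
    rw [this, ← neg_neg (qq w₂), ← hc2]
    field_simp
  · rw [norm_smul, Real.norm_of_nonneg (inv_nonneg.2 hc0.le)]
    nlinarith [norm_nonneg w₂, norm_nonneg (x, y)]
  · rw [map_smul, Prod.smul_snd, norm_smul, Real.norm_of_nonneg (inv_nonneg.2 hc0.le)]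
    nlinarith [norm_nonneg (A.ρ g w₂).2, norm_nonneg (x, y), norm_nonneg (A.ρ g (x, y)).2]

omit [CompleteSpace E] [FiniteDimensional ℝ E] [CompleteSpace F] [FiniteDimensional ℝ F]
  [InnerProductSpace ℝ E] [InnerProductSpace ℝ F] in
theorem sharp_norm {w : E × F} (hw : qq w = -1) : ‖w‖ = ‖w.2‖ ∧ 1 ≤ ‖w‖ := by
  have e : ‖w.1‖ ^ 2 - ‖w.2‖ ^ 2 = -1 := hw
  have h1 : ‖w.1‖ ≤ ‖w.2‖ := by
    refine abs_le_of_sq_le_sq' (by linarith) (norm_nonneg _) |>.2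
  have h2 : ‖w‖ = ‖w.2‖ := max_eq_right h1
  refine ⟨h2, h2 ▸ ?_⟩
  nlinarith [norm_nonneg w.2, sq_nonneg ‖w.1‖]

/-- On `{qq = -1}` the norm of the product is the norm of the second block. Letters:
`{s | ∃ w, qq w = -1 ∧ ‖w‖ ≤ 5 R ∧ ‖ρ s w‖ ≤ 5 R}`. Induction on `k`: if `qq w = -1`, `‖w‖ ≤ R`,
`‖ρ g w‖ ≤ (4 + 2 ^ k) R` then `g` is a product of at most `k + 1` letters. -/
theorem Act.sharp [Nontrivial F] (A : Act Γ E F) : ∃ l : Γ → ℕ, WordLen l ∧ ∃ C : ℝ, 1 ≤ C ∧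
    (∀ g w, qq w = -1 → ‖w‖ ≤ A.R → 2 ^ l g ≤ C * ‖A.ρ g w‖) ∧ ∀ g, A.η g ≤ C / 2 ^ l g := by
  let Sg : Set Γ := {s | ∃ w, qq w = -1 ∧ ‖w‖ ≤ 5 * A.R ∧ ‖A.ρ s w‖ ≤ 5 * A.R}
  have hR := A.one_le_R
  have hi : ∀ g w, A.ρ g⁻¹ (A.ρ g w) = w := fun g w => by
    rw [← A.toRep.ρ_mul, inv_mul_cancel, A.toRep.ρ_one]
  have hs : ∀ s ∈ Sg, s⁻¹ ∈ Sg := by
    rintro s ⟨w, h1, h2, h3⟩
    exact ⟨A.ρ s w, (A.orth s w).trans h1, h3, by rwa [hi]⟩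
  have key : ∀ k : ℕ, ∀ g w, qq w = -1 → ‖w‖ ≤ A.R → ‖A.ρ g w‖ ≤ (4 + 2 ^ k) * A.R →
      ∃ L : List Γ, (∀ s ∈ L, s ∈ Sg) ∧ L.prod = g ∧ L.length ≤ k + 1 := by
    intro k
    induction k with
    | zero =>
      intro g w h1 h2 h3
      refine ⟨[g], fun s hs => ?_, by simp, by simp⟩
      rw [List.mem_singleton.1 hs]
      exact ⟨w, h1, by linarith, by linarith⟩
    | succ k ih =>
      intro g w h1 h2 h3
      obtain ⟨w', a1, a2, a3⟩ := A.toRep.step g h1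
      have b1 : qq (A.ρ g w') = -1 := (A.orth g w').trans a1
      rw [← (sharp_norm b1).1, ← (sharp_norm ((A.orth g w).trans h1)).1] at a3
      obtain ⟨g', hg'⟩ := A.cocomp _ b1
      obtain ⟨L, c1, c2, c3⟩ := ih g' (A.ρ g'⁻¹ (A.ρ g w')) ((A.orth _ _).trans b1) hg' (by
        have := hi g'⁻¹ (A.ρ g w')
        rw [inv_inv] at this
        rw [this]
        rw [pow_succ] at h3
        linarith)
      refine ⟨L ++ [g'⁻¹ * g], fun s hs => ?_, by simp [c2], by simpa using c3⟩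
      rcases List.mem_append.1 hs with hs | hs
      · exact c1 s hs
      · rw [List.mem_singleton.1 hs]
        exact ⟨w', a1, by linarith, by rw [A.toRep.ρ_mul]; linarith⟩
  have unit : ∀ y : F, ‖y‖ = 1 → qq ((0 : E), y) = -1 ∧ ‖((0 : E), y)‖ ≤ A.R := fun y hy =>
    ⟨by simp [qq, hy], by simpa [hy] using hR⟩
  obtain ⟨l, hl, hL⟩ := exists_wordLen (Sg := Sg) (A.proper _) hs fun g => by
    obtain ⟨y, hy⟩ := exists_norm_eq F zero_le_one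
    obtain ⟨k, hk⟩ := pow_unbounded_of_one_lt ‖A.ρ g (0, y)‖ (one_lt_two (α := ℝ))
    obtain ⟨L, c1, c2, -⟩ := key k g (0, y) (unit y hy).1 (unit y hy).2 (by
      nlinarith [pow_pos (two_pos (α := ℝ)) k])
    exact ⟨L, c1, c2⟩
  have main : ∀ g w, qq w = -1 → ‖w‖ ≤ A.R → (2 : ℝ) ^ l g ≤ 4 * ‖A.ρ g w‖ := by
    intro g w h1 h2
    have h3 := (sharp_norm ((A.orth g w).trans h1)).2
    by_cases hn : l g ≤ 2
    · calc (2 : ℝ) ^ l g ≤ 2 ^ 2 := pow_le_pow_right₀ one_le_two hn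
        _ ≤ _ := by linarith
    · obtain ⟨k, hk⟩ : ∃ k, l g = k + 2 := ⟨l g - 2, by omega⟩
      by_contra hc
      obtain ⟨L, c1, c2, c3⟩ := key k g w h1 h2 (by
        rw [hk, pow_add] at hc
        nlinarith [pow_pos (two_pos (α := ℝ)) k])
      have := hL L c1
      rw [c2] at this
      omega
  refine ⟨l, hl, 4, by norm_num, main, fun g => ?_⟩
  have hp : (0 : ℝ) < 2 ^ l g := by positivity
  refine opNorm_le_bound _ (by positivity) fun y => ?_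
  by_cases hz : A.toRep.di g y = 0
  · rw [hz, norm_zero]; positivity
  · have hz' : 0 < ‖A.toRep.di g y‖ := norm_pos_iff.2 hz
    have hu : ‖‖A.toRep.di g y‖⁻¹ • A.toRep.di g y‖ = 1 := norm_smul_inv_norm hz
    have h1 := main g _ (unit _ hu).1 (unit _ hu).2
    rw [(sharp_norm ((A.orth g _).trans (unit _ hu).1)).1, A.toRep.ρ_inr] at h1
    simp only [map_smul, A.toRep.d_di, norm_smul, norm_inv, norm_norm] at h1
    rw [div_mul_eq_mul_div, le_div_iff₀ hp]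
    calc ‖A.toRep.di g y‖ * 2 ^ l g ≤ ‖A.toRep.di g y‖ * (4 * (‖A.toRep.di g y‖⁻¹ * ‖y‖)) :=
          mul_le_mul_of_nonneg_left h1 hz'.le
      _ = 4 * ‖y‖ := by field_simp

end HP
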